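import Pool.Agent.Helper1.CT.QE

/-!
The branch `β` and first differences with it.
-/

open Set

namespace Pool.Agent.Helper1.CT

/-- the support points of the branch -/
def nt (n : ℕ) : G := ((n : ℚ), (0 : ℚ))

lemma nt_inj : Function.Injective nt := by
  intro a b hab
  have : (a : ℚ) = b := congrArg Prod.fst hab
  exact_mod_cast this

open scoped Classical in
/-- the branch -/
noncomputable def β (g : G) : ℤ := if ∃ n : ℕ, g = nt n then 1 else 0

lemma β_nat (n : ℕ) : β (nt n) = 1 := by
  rw [β, if_pos ⟨n, rfl⟩]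

lemma e_nat (r : Bool) (n : ℕ) : e r (nt n) = n := by
  unfold e nt
  split_ifs <;> simp

lemma e_zero (r : Bool) : e r (0, 0) = 0 := by
  unfold e
  split_ifs <;> simp

lemma β_ne {g : G} (h : β g ≠ 0) : ∃ n : ℕ, g = nt n := by
  by_contra hc
  exact h (by rw [β, if_neg hc])

open scoped Classical in
/-- truncations of the branch -/
noncomputable def trunc (N : ℕ) : Y :=
  Finsupp.onFinset ((Finset.range (N + 1)).image nt)
    (fun g => if e false g ≤ N then β g else 0) (by
      intro g hg
      split_ifs at hg with h1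
      · obtain ⟨n, rfl⟩ := β_ne hg
        rw [e_nat] at h1
        rw [Finset.mem_image]
        refine ⟨n, ?_, rfl⟩
        rw [Finset.mem_range]
        have : n ≤ N := by exact_mod_cast h1
        omega
      · exact absurd rfl hg)

lemma trunc_apply {N : ℕ} {g : G} (h : e false g ≤ N) : trunc N g = β g := by
  rw [trunc, Finsupp.onFinset_apply, if_pos h]

lemma exists_FD_β (m : Y) : ∃ g, FD m β g := by
  classical
  obtain ⟨N, hN⟩ : ∃ N : ℕ, m (nt N) = 0 := by
    obtain ⟨x, ⟨N, rfl⟩, hx'⟩ := (Set.infinite_range_of_injective nt_inj).exists_notMem_finset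
      m.support
    exact ⟨N, Finsupp.notMem_support_iff.1 hx'⟩
  have h0 : e false (nt N) ≤ N := by rw [e_nat]
  have hne : m ≠ trunc N := by
    intro h
    have h1 : m (nt N) = trunc N (nt N) := by rw [h]
    rw [hN, trunc_apply h0, β_nat] at h1
    exact zero_ne_one h1
  obtain ⟨g, hg⟩ := (good_Y m (trunc N)).resolve_left (fun h => hne (DFunLike.coe_injective h))
  have hgN : e false g ≤ N := by
    by_contra hc
    rw [not_le] at hc
    have h1 := hg.2 (nt N) (by rw [e_nat]; exact hc)
    rw [hN, trunc_apply h0, β_nat] at h1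
    exact zero_ne_one h1
  refine ⟨g, ?_, fun g' hg' => ?_⟩
  · rw [← trunc_apply hgN]
    exact hg.1
  · rw [← trunc_apply (hg'.le.trans hgN)]
    exact hg.2 g' hg'

/-- the first difference with the branch -/
noncomputable def w (m : Y) : G := (exists_FD_β m).choose

lemma w_spec (m : Y) : FD m β (w m) := (exists_FD_β m).choose_spec

lemma V_β (r : Bool) (m : Y) : V r m β = (e r (w m) : ℝ) := V_of_FD r (w_spec m)

lemma V_β' (r : Bool) (m : Y) : V r β m = (e r (w m) : ℝ) := V_of_FD r (w_spec m).symm

lemma good_β (m : Y) : Good m β := Or.inr ⟨w m, w_spec m⟩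

/-- values far up the branch -/
lemma V_far {m y : Y} (h : e false (w y) < e false (w m)) (r : Bool) :
    V r y m = (e r (w y) : ℝ) := by
  rw [← V_β r y]
  apply V_ultra (good_β m).symm
  rw [V_β, V_β']
  exact WithTop.coe_lt_coe.2 h

/-- the point leaving the branch at `g` -/
noncomputable def pt (g : G) : Y := trunc ⌈e false g⌉₊ + Finsupp.single g 1

lemma w_pt (g : G) : w (pt g) = g := by
  apply (w_spec (pt g)).unique
  have h1 : e false g ≤ (⌈e false g⌉₊ : ℝ) := Nat.le_ceil _
  refine ⟨?_, fun g' hg' => ?_⟩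
  · simp only [pt, Finsupp.add_apply, Finsupp.single_apply, if_true]
    rw [trunc_apply h1]
    simp
  · have hne : g ≠ g' := by
      rintro rfl
      exact lt_irrefl _ hg'
    simp only [pt, Finsupp.add_apply, Finsupp.single_apply, if_neg hne, add_zero]
    exact trunc_apply (hg'.le.trans h1)

lemma V_trunc_lt_iff {N : ℕ} {m : Y} :
    V false m (trunc N) < ((N : ℝ) : WithTop ℝ) ↔ e false (w m) < N := by
  constructor
  · intro h
    obtain ⟨g, hg⟩ := exists_FD_of_ne_top (ne_top_of_lt h)
    rw [V_of_FD false hg, WithTop.coe_lt_coe] at h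
    refine lt_of_le_of_lt ?_ h
    by_contra hc
    rw [not_le] at hc
    have h1 := (w_spec m).2 g hc
    rw [← trunc_apply h.le] at h1
    exact hg.1 h1
  · intro h
    refine lt_of_le_of_lt (V_le_of_ne (good_Y _ _) (g := w m) ?_) (WithTop.coe_lt_coe.2 h)
    rw [trunc_apply h.le]
    exact (w_spec m).1

lemma FD_zero_β : FD (0 : Y) β (0, 0) := by
  refine ⟨?_, fun g' hg' => ?_⟩
  · have h0 : β ((0, 0) : G) = 1 := by
      have := β_nat 0
      simpa [nt] using this
    rw [h0]
    simp
  · by_contra hc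
    have h1 : β g' ≠ 0 := fun h => hc (by simp [h])
    obtain ⟨n, rfl⟩ := β_ne h1
    rw [e_nat, e_zero] at hg'
    exact absurd hg' (not_lt.2 (Nat.cast_nonneg n))

/-- the point of value `g` over `0` -/
noncomputable def sg (g : G) : Y := Finsupp.single g 1

lemma V_sg (r : Bool) (g : G) : V r (sg g) (0 : Y) = (e r g : ℝ) := by
  apply V_of_FD
  refine ⟨by simp [sg], fun g' hg' => ?_⟩
  have hne : g ≠ g' := by
    rintro rfl
    exact lt_irrefl _ hg'
  simp [sg, Finsupp.single_apply, if_neg hne]

lemma V_sg_y {g : G} {y : Y} (hg : 0 < e false g) (hy : 0 < e false (w y)) (r : Bool) :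
    V r (sg g) y = (e r (0, 0) : ℝ) := by
  have hw0 : w 0 = (0, 0) := (w_spec 0).unique FD_zero_β
  have h1 : ∀ r, V r y (0 : Y) = (e r (0, 0) : ℝ) := by
    intro r
    rw [V_comm, ← hw0]
    apply V_far
    rw [hw0, e_zero]
    exact hy
  rw [V_comm, ← h1 r]
  apply V_ultra (good_Y _ _)
  rw [h1, V_comm, V_sg, e_zero]
  exact WithTop.coe_lt_coe.2 hg

end Pool.Agent.Helper1.CT
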