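import Mathlib

/-!
General model-theoretic definitions used by the hand-in on `MP_d4560b_lc`.
-/

open FirstOrder FirstOrder.Language Set

namespace Pool.Agent.Helper1.CT

universe u w

variable {L : FirstOrder.Language.{0, 0}}

/-- `T` is NIP: for every formula `φ(x; y)` (with `x` of length `k`, `y` of length `l`) there is
`N` such that in no model of `T` are there tuples `a i` (`i < N`) and `b S` (`S ⊆ N`) such that
`φ(a i; b S)` holds exactly when `i ∈ S`. -/
def IsNIP (T : L.Theory) : Prop :=
  ∀ (k l : ℕ) (φ : L.Formula (Fin k ⊕ Fin l)), ∃ N : ℕ, ∀ (X : Type w) [L.Structure X] [X ⊨ T],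
    ¬ ∃ (a : Fin N → Fin k → X) (b : Set (Fin N) → Fin l → X),
      ∀ i S, φ.Realize (Sum.elim (a i) (b S)) ↔ i ∈ S

variable {U : Type u} [L.Structure U]

/-- A complete type over the parameter set `A` in variables indexed by `n`, presented as an
ultrafilter of `A`-definable subsets of `n → U`. -/
@[ext] structure TypeOver (L : FirstOrder.Language.{0, 0}) {U : Type u} [L.Structure U] (A : Set U)
    (n : Type) where
  /-- the definable sets belonging to the type -/
  sets : Set (Set (n → U))
  definable : ∀ S ∈ sets, A.Definable L S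
  inter_mem : ∀ S ∈ sets, ∀ S' ∈ sets, S ∩ S' ∈ sets
  mem_or_compl : ∀ S, A.Definable L S → S ∈ sets ∨ Sᶜ ∈ sets
  empty_notMem : ∅ ∉ sets

/-- A global type, i.e. a complete type over the whole of `U`. -/
abbrev GlobalType (L : FirstOrder.Language.{0, 0}) (U : Type u) [L.Structure U] (n : Type) :=
  TypeOver L (univ : Set U) n

/-- The tuple `b` realises the restriction of the global type `r` to the parameter set `B`. -/
def Realizes (B : Set U) {n : Type} (r : GlobalType L U n) (b : n → U) : Prop :=
  ∀ S ∈ r.sets, B.Definable L S → b ∈ S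

/-- The global type `r` is finitely satisfiable in `M`. -/
def FinSat (M : Set U) {n : Type} (r : GlobalType L U n) : Prop :=
  ∀ S ∈ r.sets, ∃ b ∈ S, ∀ i, b i ∈ M

/-- The global type `r` is a coheir of `q ∈ S(M)`: it extends `q` and is finitely satisfiable
in `M`. -/
def IsCoheir (M : Set U) {n : Type} (q : TypeOver L M n) (r : GlobalType L U n) : Prop :=
  q.sets ⊆ r.sets ∧ FinSat M r

/-- The global type `p` is `M`-invariant: fixed by every automorphism of `U` fixing `M`
pointwise. -/
def IsInvariant (M : Set U) {n : Type} (p : GlobalType L U n) : Prop :=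
  ∀ σ : U ≃[L] U, (∀ m ∈ M, σ m = m) →
    ∀ S : Set (n → U), S ∈ p.sets ↔ (fun a i => σ (a i)) '' S ∈ p.sets

/-- Membership in the product `p ⊗ r` of two `M`-invariant types: the definable set
`D ⊆ U^m × U^n` belongs to `p ⊗ r` iff for a finite set `A` over which (together with `M`) it is
definable and for `b` realising `r` over `M ∪ A`, the fibre `{a | (a, b) ∈ D}` belongs to `p`. -/
def InProd (M : Set U) {m n : Type} (p : GlobalType L U m) (r : GlobalType L U n)
    (D : Set (m ⊕ n → U)) : Prop :=
  ∃ A : Set U, A.Finite ∧ (M ∪ A).Definable L D ∧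
    ∀ b : n → U, Realizes (M ∪ A) r b → {a | Sum.elim a b ∈ D} ∈ p.sets

/-- The set obtained from `D ⊆ U^m × U^n` by exchanging the two groups of variables. -/
def swapSet {m n : Type} (D : Set (m ⊕ n → U)) : Set (n ⊕ m → U) :=
  {c | Sum.elim (c ∘ Sum.inr) (c ∘ Sum.inl) ∈ D}

/-- The types `p` and `r` commute over `M`: `p_x ⊗ r_y = r_y ⊗ p_x`. -/
def Commute (M : Set U) {m n : Type} (p : GlobalType L U m) (r : GlobalType L U n) : Prop :=
  ∀ D : Set (m ⊕ n → U), InProd M p r D ↔ InProd M r p (swapSet D)

/-- `U` is `ℵ₁`-saturated: every family of sets in `U ^ k` definable over a fixed countable set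
and with the finite intersection property has nonempty intersection.  Every monster model of a
theory has this property. -/
def IsSaturated (L : FirstOrder.Language.{0, 0}) (U : Type u) [L.Structure U] : Prop :=
  ∀ (A : Set U), A.Countable → ∀ (k : ℕ) (F : Set (Set (Fin k → U))),
    (∀ S ∈ F, A.Definable L S) →
    (∀ F' ⊆ F, F'.Finite → (⋂₀ F').Nonempty) → (⋂₀ F).Nonempty

end Pool.Agent.Helper1.CT
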