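import Pool.Agent.Helper1.CT.QE

/-!
Elementary facts on values in an arbitrary model of the theory, by transfer.
-/

open FirstOrder FirstOrder.Language Set

namespace Pool.Agent.Helper1.CT

section

variable {N : Type*} [LL.Structure N]

/-- `Lt r a b c d`: the value of `(a, b)` is below the value of `(c, d)` in the order `r`. -/
def Lt (r : Bool) (a b c d : N) : Prop :=
  Structure.RelMap (L := LL) (Rel.R r) ![a, b, c, d]

/-- the pairs have the same value -/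
def Eqv (a b c d : N) : Prop := ¬ Lt false a b c d ∧ ¬ Lt false c d a b

lemma relMap_eq_Lt (r : Bool) (v : Fin 4 → N) :
    Structure.RelMap (L := LL) (Rel.R r) v ↔ Lt r (v 0) (v 1) (v 2) (v 3) := by
  have : v = ![v 0, v 1, v 2, v 3] := by
    funext i
    fin_cases i <;> rfl
  rw [Lt, ← this]

lemma Lt_Y (r : Bool) (a b c d : Y) : Lt r a b c d ↔ V r a b < V r c d := by
  rw [Lt, relMap_Y]
  rfl

lemma Eqv_Y (a b c d : Y) : Eqv a b c d ↔ V false a b = V false c d := by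
  rw [Eqv, Lt_Y, Lt_Y, not_lt, not_lt]
  exact ⟨fun h => le_antisymm h.2 h.1, fun h => ⟨h.ge, h.le⟩⟩

lemma SameDiag.lt_iff {N' : Type*} [LL.Structure N'] {ι : Type*} {s : ι → N} {s' : ι → N'}
    (h : SameDiag s s') (r : Bool) (i j k l : ι) :
    Lt r (s i) (s j) (s k) (s l) ↔ Lt r (s' i) (s' j) (s' k) (s' l) := by
  have := h.2 r ![i, j, k, l]
  rwa [relMap_eq_Lt, relMap_eq_Lt] at this

lemma SameDiag.eqv_iff {N' : Type*} [LL.Structure N'] {ι : Type*} {s : ι → N} {s' : ι → N'}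
    (h : SameDiag s s') (i j k l : ι) :
    Eqv (s i) (s j) (s k) (s l) ↔ Eqv (s' i) (s' j) (s' k) (s' l) := by
  rw [Eqv, Eqv, h.lt_iff, h.lt_iff]

lemma sameDiag_of_lt_iff {N' : Type*} [LL.Structure N'] {ι : Type*} {s : ι → N} {s' : ι → N'}
    (h : ∀ i j, s i = s j ↔ s' i = s' j)
    (h' : ∀ r i j k l, Lt r (s i) (s j) (s k) (s l) ↔ Lt r (s' i) (s' j) (s' k) (s' l)) :
    SameDiag s s' := by
  refine ⟨h, fun r w => ?_⟩
  rw [relMap_eq_Lt, relMap_eq_Lt]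
  exact h' r _ _ _ _

lemma Eqv.symm {a b c d : N} (h : Eqv a b c d) : Eqv c d a b := ⟨h.2, h.1⟩

lemma trich (a b c d : N) : Lt false a b c d ∨ Eqv a b c d ∨ Lt false c d a b := by
  by_cases h1 : Lt false a b c d
  · exact Or.inl h1
  by_cases h2 : Lt false c d a b
  · exact Or.inr (Or.inr h2)
  · exact Or.inr (Or.inl ⟨h1, h2⟩)

end

section

variable {N : Type*} [LL.Structure N] [N ⊨ TT]

lemma Lt_congr {a b c d a' b' c' d' : N} (h : Eqv a b a' b') (h' : Eqv c d c' d') (r : Bool) :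
    Lt r a b c d ↔ Lt r a' b' c' d' := by
  obtain ⟨t, ht⟩ := exists_sameDiag ![a, b, c, d, a', b', c', d']
  have h1 := (ht.eqv_iff 0 1 4 5).1 h
  have h2 := (ht.eqv_iff 2 3 6 7).1 h'
  rw [Eqv_Y] at h1 h2
  have h3 := ht.lt_iff r 0 1 2 3
  have h4 := ht.lt_iff r 4 5 6 7
  rw [Lt_Y] at h3 h4
  rw [V_transfer h1 r, V_transfer h2 r, ← h4] at h3
  exact h3

lemma Eqv.trans {a b c d a' b' : N} (h : Eqv a b c d) (h' : Eqv c d a' b') :
    Eqv a b a' b' := by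
  obtain ⟨t, ht⟩ := exists_sameDiag ![a, b, c, d, a', b']
  have h1 := (ht.eqv_iff 0 1 2 3).1 h
  have h2 := (ht.eqv_iff 2 3 4 5).1 h'
  have h3 := ht.eqv_iff 0 1 4 5
  rw [Eqv_Y] at h1 h2 h3
  exact h3.2 (h1.trans h2)

lemma Eqv_comm (a b : N) : Eqv a b b a := by
  obtain ⟨t, ht⟩ := exists_sameDiag ![a, b]
  have h3 := ht.eqv_iff 0 1 1 0
  rw [Eqv_Y] at h3
  exact h3.2 (V_comm _ _ _)

lemma Eqv_refl (a b : N) : Eqv a b a b := (Eqv_comm a b).trans (Eqv_comm b a)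

lemma Eqv_self (a c : N) : Eqv a a c c := by
  obtain ⟨t, ht⟩ := exists_sameDiag ![a, c]
  have h3 := ht.eqv_iff 0 0 1 1
  rw [Eqv_Y] at h3
  exact h3.2 (by rw [V_self, V_self])

lemma Eqv_ultra {a b c : N} (h : Lt false a b b c) : Eqv a c a b := by
  obtain ⟨t, ht⟩ := exists_sameDiag ![a, b, c]
  have h1 := (ht.lt_iff false 0 1 1 2).1 h
  rw [Lt_Y] at h1
  have h3 := ht.eqv_iff 0 2 0 1
  rw [Eqv_Y] at h3
  exact h3.2 (V_ultra (good_Y _ _) h1 false)

lemma eq_iff_Lt {a b : N} : a = b ↔ ¬ Lt false a b a a := by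
  obtain ⟨t, ht⟩ := exists_sameDiag ![a, b]
  have h1 := ht.1 0 1
  have h2 := ht.lt_iff false 0 1 0 0
  simp only [Matrix.cons_val_zero, Matrix.cons_val_one] at h1 h2
  rw [h1, h2, Lt_Y, V_self, not_lt, top_le_iff, V_eq_top_iff_Y]

end

section embed

variable {N : Type*} [LL.Structure N] (f : Y ↪ₑ[LL] N)

lemma Lt_map (r : Bool) (a b c d : Y) :
    Lt r (f a) (f b) (f c) (f d) ↔ V r a b < V r c d := by
  rw [← Lt_Y]
  have h := f.map_rel (Rel.R r) ![a, b, c, d]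
  have h2 : (f ∘ ![a, b, c, d]) = ![f a, f b, f c, f d] := by
    funext i
    fin_cases i <;> rfl
  rw [h2] at h
  exact h

lemma Eqv_map (a b c d : Y) :
    Eqv (f a) (f b) (f c) (f d) ↔ V false a b = V false c d := by
  rw [← Eqv_Y, Eqv, Eqv, Lt_map, Lt_map, Lt_Y, Lt_Y]

end embed

end Pool.Agent.Helper1.CT
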