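import Pool.Agent.Helper1.CT.Val

/-!
Partial isomorphisms of `Y` and their one-point extension.
-/

open Set

namespace Pool.Agent.Helper1.CT

/-- `P` is a partial isomorphism: order comparisons of values between pairs are preserved. -/
def PI (P : Set (Y × Y)) : Prop :=
  ∀ r, ∀ p ∈ P, ∀ q ∈ P, ∀ p' ∈ P, ∀ q' ∈ P,
    V r p.1 q.1 < V r p'.1 q'.1 ↔ V r p.2 q.2 < V r p'.2 q'.2

lemma PI.eq_iff {P : Set (Y × Y)} (h : PI P) (r : Bool) {p q p' q' : Y × Y} (hp : p ∈ P)
    (hq : q ∈ P) (hp' : p' ∈ P) (hq' : q' ∈ P) :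
    V r p.1 q.1 = V r p'.1 q'.1 ↔ V r p.2 q.2 = V r p'.2 q'.2 := by
  have h1 := h r p hp q hq p' hp' q' hq'
  have h2 := h r p' hp' q' hq' p hp q hq
  constructor
  · intro heq
    apply le_antisymm
    · rw [← not_lt, ← h2, not_lt, heq]
    · rw [← not_lt, ← h1, not_lt, heq]
  · intro heq
    apply le_antisymm
    · rw [← not_lt, h2, not_lt, heq]
    · rw [← not_lt, h1, not_lt, heq]

/-- The step lemma: adding one point whose position is determined by the closest point. -/
lemma PI.step {P : Set (Y × Y)} (h : PI P) {z z' : Y} {p0 : Y × Y} (hp0 : p0 ∈ P)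
    (hmax : ∀ p ∈ P, V false z p.1 ≤ V false z p0.1)
    (hmax' : ∀ p ∈ P, V false z' p.2 ≤ V false z' p0.2)
    (hcomp : ∀ r, ∀ p ∈ P, ∀ q ∈ P,
      (V r p.1 q.1 < V r z p0.1 ↔ V r p.2 q.2 < V r z' p0.2) ∧
      (V r z p0.1 < V r p.1 q.1 ↔ V r z' p0.2 < V r p.2 q.2)) :
    PI (insert (z, z') P) := by
  -- normal form of pairs `(z, p)`
  have key : ∀ p ∈ P, (∃ q ∈ P, ∃ q' ∈ P, ∀ r, V r z p.1 = V r q.1 q'.1 ∧
      V r z' p.2 = V r q.2 q'.2) ∨
      (∀ r, V r z p.1 = V r z p0.1 ∧ V r z' p.2 = V r z' p0.2) := by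
    intro p hp
    by_cases hlt : V false p0.1 p.1 < V false z p0.1
    · left
      have hlt' : V false p0.2 p.2 < V false z' p0.2 :=
        (hcomp false p0 hp0 p hp).1.1 hlt
      refine ⟨p0, hp0, p, hp, fun r => ⟨?_, ?_⟩⟩
      · rw [V_comm r z p.1, V_comm r p0.1 p.1]
        apply V_ultra (good_Y _ _)
        rw [V_comm false p.1 p0.1, V_comm false p0.1 z]
        exact hlt
      · rw [V_comm r z' p.2, V_comm r p0.2 p.2]
        apply V_ultra (good_Y _ _)
        rw [V_comm false p.2 p0.2, V_comm false p0.2 z']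
        exact hlt'
    · right
      have hlt' : ¬ V false p0.2 p.2 < V false z' p0.2 := fun hc =>
        hlt ((hcomp false p0 hp0 p hp).1.2 hc)
      have e1 : V false z p.1 = V false z p0.1 := by
        apply le_antisymm (hmax p hp)
        by_contra hc
        rw [not_le] at hc
        -- V z p < V z p0 so V z p = V p p0
        have hu : V false p.1 p0.1 = V false p.1 z :=
          V_ultra (good_Y _ _) (by rw [V_comm false p.1 z]; exact hc) false
        apply hlt
        rw [V_comm false p0.1 p.1, hu, V_comm false p.1 z]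
        exact hc
      have e2 : V false z' p.2 = V false z' p0.2 := by
        apply le_antisymm (hmax' p hp)
        by_contra hc
        rw [not_le] at hc
        have hu : V false p.2 p0.2 = V false p.2 z' :=
          V_ultra (good_Y _ _) (by rw [V_comm false p.2 z']; exact hc) false
        apply hlt'
        rw [V_comm false p0.2 p.2, hu, V_comm false p.2 z']
        exact hc
      exact fun r => ⟨V_transfer e1 r, V_transfer e2 r⟩
  -- normal form of all pairs
  have key2 : ∀ p ∈ insert (z, z') P, ∀ q ∈ insert (z, z') P,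
      (∃ p' ∈ P, ∃ q' ∈ P, ∀ r, V r p.1 q.1 = V r p'.1 q'.1 ∧ V r p.2 q.2 = V r p'.2 q'.2) ∨
      (∀ r, V r p.1 q.1 = V r z p0.1 ∧ V r p.2 q.2 = V r z' p0.2) := by
    intro p hp q hq
    rcases mem_insert_iff.1 hp with rfl | hp
    · rcases mem_insert_iff.1 hq with rfl | hq
      · left
        exact ⟨p0, hp0, p0, hp0, fun r => by simp only [V_self, and_self]⟩
      · exact key q hq
    · rcases mem_insert_iff.1 hq with rfl | hq
      · rcases key p hp with ⟨q1, hq1, q2, hq2, hk⟩ | hk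
        · left
          refine ⟨q1, hq1, q2, hq2, fun r => ?_⟩
          rw [V_comm r p.1, V_comm r p.2]
          exact hk r
        · right
          intro r
          rw [V_comm r p.1, V_comm r p.2]
          exact hk r
      · left
        exact ⟨p, hp, q, hq, fun r => ⟨rfl, rfl⟩⟩
  intro r p hp q hq p' hp' q' hq'
  rcases key2 p hp q hq with ⟨a, ha, b, hb, h1⟩ | h1 <;>
  rcases key2 p' hp' q' hq' with ⟨c, hc, d, hd, h2⟩ | h2
  · rw [(h1 r).1, (h1 r).2, (h2 r).1, (h2 r).2]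
    exact h r a ha b hb c hc d hd
  · rw [(h1 r).1, (h1 r).2, (h2 r).1, (h2 r).2]
    exact (hcomp r a ha b hb).1
  · rw [(h1 r).1, (h1 r).2, (h2 r).1, (h2 r).2]
    exact (hcomp r c hc d hd).2
  · rw [(h1 r).1, (h1 r).2, (h2 r).1, (h2 r).2]
    simp only [lt_self_iff_false]

/-- Existence of a group element in the right position. -/
lemma PI.exists_value {P : Set (Y × Y)} (h : PI P) (hfin : P.Finite) (g : G) :
    ∃ g' : G, ∀ r, ∀ p ∈ P, ∀ q ∈ P,
      (V r p.1 q.1 < ((e r g : ℝ) : WithTop ℝ) ↔ V r p.2 q.2 < ((e r g' : ℝ) : WithTop ℝ)) ∧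
      (((e r g : ℝ) : WithTop ℝ) < V r p.1 q.1 ↔ ((e r g' : ℝ) : WithTop ℝ) < V r p.2 q.2) := by
  classical
  by_cases hex : ∃ p ∈ P, ∃ q ∈ P, FD p.1 q.1 g
  · obtain ⟨p, hp, q, hq, hfd⟩ := hex
    have hv : ∀ r, V r p.1 q.1 = (e r g : ℝ) := fun r => V_of_FD r hfd
    have hne : V false p.2 q.2 ≠ ⊤ := by
      intro htop
      have h1 : V false p.2 q.2 = V false p.2 p.2 := by rw [htop, V_self]
      rw [← h.eq_iff false hp hq hp hp, V_self, hv] at h1
      exact WithTop.coe_ne_top h1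
    obtain ⟨g', hg'⟩ := exists_FD_of_ne_top hne
    refine ⟨g', fun r p1 hp1 q1 hq1 => ?_⟩
    rw [← hv r, ← V_of_FD r hg']
    exact ⟨h r p1 hp1 q1 hq1 p hp q hq, h r p hp q hq p1 hp1 q1 hq1⟩
  · have hneq : ∀ r, ∀ p ∈ P, ∀ q ∈ P, V r p.1 q.1 ≠ (e r g : ℝ) := by
      intro r p hp q hq heq
      apply hex
      have hne : V r p.1 q.1 ≠ ⊤ := by rw [heq]; exact WithTop.coe_ne_top
      obtain ⟨g1, hg1⟩ := exists_FD_of_ne_top hne
      rw [V_of_FD r hg1] at heq
      have : g1 = g := e_inj (WithTop.coe_injective heq)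
      subst this
      exact ⟨p, hp, q, hq, hg1⟩
    -- finite sets of pairs
    let F : Finset ((Y × Y) × (Y × Y)) := hfin.toFinset ×ˢ hfin.toFinset
    let lo : Bool → Finset ℝ := fun r =>
      (F.filter (fun pq => V r pq.1.1 pq.2.1 < (e r g : ℝ))).image
        (fun pq => (V r pq.1.2 pq.2.2).untopD 0)
    let hi : Bool → Finset ℝ := fun r =>
      (F.filter (fun pq => ((e r g : ℝ) : WithTop ℝ) < V r pq.1.1 pq.2.1 ∧
        V r pq.1.2 pq.2.2 ≠ ⊤)).image
        (fun pq => (V r pq.1.2 pq.2.2).untopD 0)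
    have memF : ∀ pq : (Y × Y) × (Y × Y), pq ∈ F ↔ pq.1 ∈ P ∧ pq.2 ∈ P := by
      intro pq
      simp [F]
    -- lower elements are not top
    have lo_ne : ∀ r, ∀ p ∈ P, ∀ q ∈ P, V r p.1 q.1 < (e r g : ℝ) → V r p.2 q.2 ≠ ⊤ := by
      intro r p hp q hq hlt htop
      have h1 : V r p.2 q.2 = V r p.2 p.2 := by rw [htop, V_self]
      rw [← h.eq_iff r hp hq hp hp, V_self] at h1
      rw [h1] at hlt
      exact not_top_lt hlt
    have hm : ∀ r, ∃ m : ℝ, (∀ x ∈ lo r, x < m) ∧ ∀ y ∈ hi r, m < y := by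
      intro r
      apply Order.exists_between_finsets
      intro x hx y hy
      simp only [lo, hi, Finset.mem_image, Finset.mem_filter] at hx hy
      obtain ⟨pq, ⟨hpq, hlt⟩, rfl⟩ := hx
      obtain ⟨pq', ⟨hpq', hlt', hne'⟩, rfl⟩ := hy
      rw [memF] at hpq hpq'
      have h1 := lo_ne r _ hpq.1 _ hpq.2 hlt
      have h2 : V r pq.1.2 pq.2.2 < V r pq'.1.2 pq'.2.2 :=
        (h r _ hpq.1 _ hpq.2 _ hpq'.1 _ hpq'.2).1 (lt_trans hlt hlt')
      obtain ⟨u, hu⟩ := WithTop.ne_top_iff_exists.1 h1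
      obtain ⟨v, hv⟩ := WithTop.ne_top_iff_exists.1 hne'
      rw [← hu, ← hv] at h2 ⊢
      simpa using WithTop.coe_lt_coe.1 h2
    choose m hm1 hm2 using hm
    -- the open set
    let O : Set (ℝ × ℝ) := (⋂ x ∈ lo false, {p | x < p.1}) ∩ (⋂ x ∈ hi false, {p | p.1 < x}) ∩
      ((⋂ x ∈ lo true, {p | x < p.2}) ∩ (⋂ x ∈ hi true, {p | p.2 < x}))
    have hO : IsOpen O := by
      refine IsOpen.inter (IsOpen.inter ?_ ?_) (IsOpen.inter ?_ ?_)
      · exact isOpen_biInter_finset fun x _ => isOpen_lt continuous_const continuous_fst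
      · exact isOpen_biInter_finset fun x _ => isOpen_lt continuous_fst continuous_const
      · exact isOpen_biInter_finset fun x _ => isOpen_lt continuous_const continuous_snd
      · exact isOpen_biInter_finset fun x _ => isOpen_lt continuous_snd continuous_const
    have hOne : O.Nonempty := by
      refine ⟨(m false, m true), ⟨?_, ?_⟩, ⟨?_, ?_⟩⟩
      · exact mem_iInter₂.2 fun x hx => hm1 false x hx
      · exact mem_iInter₂.2 fun x hx => hm2 false x hx
      · exact mem_iInter₂.2 fun x hx => hm1 true x hx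
      · exact mem_iInter₂.2 fun x hx => hm2 true x hx
    obtain ⟨g', hg'⟩ := e_box hO hOne
    have hlo : ∀ r, ∀ x ∈ lo r, x < e r g' := by
      intro r x hx
      cases r
      · exact (mem_iInter₂.1 hg'.1.1) x hx
      · exact (mem_iInter₂.1 hg'.2.1) x hx
    have hhi : ∀ r, ∀ x ∈ hi r, e r g' < x := by
      intro r x hx
      cases r
      · exact (mem_iInter₂.1 hg'.1.2) x hx
      · exact (mem_iInter₂.1 hg'.2.2) x hx
    have f1 : ∀ r, ∀ p ∈ P, ∀ q ∈ P, V r p.1 q.1 < (e r g : ℝ) →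
        V r p.2 q.2 < (e r g' : ℝ) := by
      intro r p hp q hq hlt
      have h1 := lo_ne r p hp q hq hlt
      have h2 : (V r p.2 q.2).untopD 0 ∈ lo r := by
        simp only [lo, Finset.mem_image, Finset.mem_filter]
        exact ⟨(p, q), ⟨(memF _).2 ⟨hp, hq⟩, hlt⟩, rfl⟩
      have h3 := hlo r _ h2
      obtain ⟨u, hu⟩ := WithTop.ne_top_iff_exists.1 h1
      rw [← hu] at h3 ⊢
      simpa using h3
    have f2 : ∀ r, ∀ p ∈ P, ∀ q ∈ P, ((e r g : ℝ) : WithTop ℝ) < V r p.1 q.1 →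
        ((e r g' : ℝ) : WithTop ℝ) < V r p.2 q.2 := by
      intro r p hp q hq hlt
      by_cases h1 : V r p.2 q.2 = ⊤
      · rw [h1]; exact WithTop.coe_lt_top _
      have h2 : (V r p.2 q.2).untopD 0 ∈ hi r := by
        simp only [hi, Finset.mem_image, Finset.mem_filter]
        exact ⟨(p, q), ⟨(memF _).2 ⟨hp, hq⟩, hlt, h1⟩, rfl⟩
      have h3 := hhi r _ h2
      obtain ⟨u, hu⟩ := WithTop.ne_top_iff_exists.1 h1
      rw [← hu] at h3 ⊢
      simpa using h3
    refine ⟨g', fun r p hp q hq => ?_⟩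
    rcases lt_trichotomy (V r p.1 q.1) ((e r g : ℝ) : WithTop ℝ) with hlt | heq | hgt
    · have := f1 r p hp q hq hlt
      exact ⟨⟨fun _ => this, fun _ => hlt⟩,
        ⟨fun h' => absurd h' (lt_asymm hlt), fun h' => absurd h' (lt_asymm this)⟩⟩
    · exact absurd heq (hneq r p hp q hq)
    · have := f2 r p hp q hq hgt
      exact ⟨⟨fun h' => absurd h' (lt_asymm hgt), fun h' => absurd h' (lt_asymm this)⟩,
        ⟨fun _ => this, fun _ => hgt⟩⟩

/-- One-point extension. -/
lemma PI.extend {P : Set (Y × Y)} (h : PI P) (hfin : P.Finite) (z : Y) :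
    ∃ z' : Y, PI (insert (z, z') P) := by
  classical
  rcases P.eq_empty_or_nonempty with rfl | hne
  · refine ⟨z, ?_⟩
    intro r p hp q hq p' hp' q' hq'
    simp only [insert_empty_eq, mem_singleton_iff] at hp hq hp' hq'
    subst hp; subst hq; subst hp'; subst hq'
    rfl
  obtain ⟨p0, hp0, hmax⟩ := hfin.exists_maximalFor (fun p => V false z p.1) P hne
  have hmax' : ∀ p ∈ P, V false z p.1 ≤ V false z p0.1 := by
    intro p hp
    rcases le_total (V false z p.1) (V false z p0.1) with h1 | h1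
    · exact h1
    · exact hmax hp h1
  by_cases htop : V false z p0.1 = ⊤
  · -- z = p0.1
    have hz : z = p0.1 := V_eq_top_iff_Y.1 htop
    subst hz
    refine ⟨p0.2, ?_⟩
    have : ((p0.1, p0.2) : Y × Y) = p0 := rfl
    rw [this, insert_eq_of_mem hp0]
    exact h
  obtain ⟨g, hg⟩ := exists_FD_of_ne_top htop
  have hv : ∀ r, V r z p0.1 = (e r g : ℝ) := fun r => V_of_FD r hg
  obtain ⟨g', hg'⟩ := h.exists_value hfin g
  obtain ⟨c, hc⟩ : ∃ c : ℤ, c ∉ hfin.toFinset.image (fun p => p.2 g') :=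
    Infinite.exists_notMem_finset _
  have hc' : ∀ p ∈ P, p.2 g' ≠ c := by
    intro p hp heq
    apply hc
    rw [Finset.mem_image]
    exact ⟨p, hfin.mem_toFinset.2 hp, heq⟩
  let z' : Y := p0.2.filter (fun g1 => e false g1 < e false g') + Finsupp.single g' c
  have hz1 : ∀ g1, e false g1 < e false g' → z' g1 = p0.2 g1 := by
    intro g1 hg1
    have hne1 : g' ≠ g1 := by
      rintro rfl
      exact lt_irrefl _ hg1
    simp only [z', Finsupp.add_apply, Finsupp.single_apply, if_neg hne1, add_zero,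
      Finsupp.filter_apply, if_pos hg1]
  have hz2 : z' g' = c := by
    simp only [z', Finsupp.add_apply, Finsupp.single_apply, if_true, Finsupp.filter_apply,
      lt_irrefl, if_false, zero_add]
  have hfd : FD z' p0.2 g' := by
    refine ⟨?_, hz1⟩
    rw [hz2]
    exact (hc' p0 hp0).symm
  have hv' : ∀ r, V r z' p0.2 = (e r g' : ℝ) := fun r => V_of_FD r hfd
  refine ⟨z', h.step hp0 hmax' ?_ ?_⟩
  · intro p hp
    rw [hv']
    apply V_le_of_ne (good_Y _ _)
    rw [hz2]
    exact (hc' p hp).symm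
  · intro r p hp q hq
    rw [hv, hv']
    exact hg' r p hp q hq

end Pool.Agent.Helper1.CT
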