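import Pool.Agent.Helper1.CT.Main

/-!
The final assembly.
-/

open FirstOrder FirstOrder.Language Set Filter Topology Cardinal

namespace Pool.Agent.Helper1.CT

universe u

/-- a sequence of group elements -/
lemma exists_seq (s : ℝ) (l u : ℕ → ℝ) (hlu : ∀ n, l n < u n) : ∃ g : ℕ → G,
    (∀ n, l n < e false (g n) ∧ e false (g n) < u n) ∧
    Tendsto (fun n => e true (g n)) atTop (𝓝[<] s) := by
  have h1 : ∀ n : ℕ, ∃ g : G, (l n < e false g ∧ e false g < u n) ∧
      (s - 1 / ((n : ℝ) + 1) < e true g ∧ e true g < s) := by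
    intro n
    obtain ⟨g, hg⟩ := e_box (O := Ioo (l n) (u n) ×ˢ Ioo (s - 1 / ((n : ℝ) + 1)) s)
      (isOpen_Ioo.prod isOpen_Ioo) (by
        apply Set.Nonempty.prod
        · exact nonempty_Ioo.2 (hlu n)
        · apply nonempty_Ioo.2
          have : (0 : ℝ) < 1 / ((n : ℝ) + 1) := Nat.one_div_pos_of_nat
          linarith)
    exact ⟨g, hg.1, hg.2⟩
  choose g hg using h1
  refine ⟨g, fun n => (hg n).1, ?_⟩
  rw [tendsto_nhdsWithin_iff]
  refine ⟨?_, Eventually.of_forall fun n => (hg n).2.2⟩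
  have h2 : Tendsto (fun n : ℕ => s - 1 / ((n : ℝ) + 1)) atTop (𝓝 s) := by
    have := (tendsto_const_nhds (x := s)).sub tendsto_one_div_add_atTop_nhds_zero_nat
    simpa using this
  exact tendsto_of_tendsto_of_tendsto_of_le_of_le h2 tendsto_const_nhds
    (fun n => (hg n).2.1.le) (fun n => (hg n).2.2.le)

section

variable {U : Type u} [LL.Structure U] [U ⊨ TT] (f : Y ↪ₑ[LL] U)

/-- the filter of points of the branch -/
noncomputable def branchFilter : Filter Y := comap (fun m => e false (w m)) atTop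

instance : NeBot branchFilter := by
  rw [branchFilter, comap_neBot_iff]
  intro t ht
  obtain ⟨a, ha⟩ := mem_atTop_sets.1 ht
  obtain ⟨g, hg, _⟩ := exists_seq 0 (fun _ => a) (fun _ => a + 1) (fun _ => by linarith)
  exact ⟨pt (g 0), by rw [w_pt]; exact ha _ (hg 0).1.le⟩

omit [U ⊨ TT] in
lemma mem_range_elim (c : range f) : ∃ y : Y, f y = c := c.2

include f in
/-- a definable set over the small model is eventually constant along the branch -/
lemma branch_const {S : Set (Fin 1 → U)} (hS : (range f).Definable LL S) :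
    (∀ᶠ m in branchFilter, (fun _ => f m) ∈ S) ∨ (∀ᶠ m in branchFilter, (fun _ => f m) ∈ Sᶜ) := by
  rw [definable_iff_exists_formula_sum] at hS
  obtain ⟨φ, rfl⟩ := hS
  obtain ⟨F, hF⟩ := exists_finset_of_formula φ
  choose pre hpre using mem_range_elim f
  let tup : Y → (range f ⊕ Fin 1) → Y := fun m => Sum.elim pre (fun _ => m)
  have hval : ∀ m, (Sum.elim (fun c : range f => (c : U)) (fun _ => f m)) = f ∘ (tup m) := by
    intro m
    funext i
    rcases i with i | i
    · exact (hpre i).symm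
    · rfl
  -- far elements
  have hfar : ∀ᶠ m in branchFilter, ∀ i : F, ∀ c : range f, (i : range f ⊕ Fin 1) = Sum.inl c →
      e false (w (pre c)) < e false (w m) := by
    rw [eventually_all]
    rintro ⟨i, hi⟩
    rcases i with c | j
    · have h1 : ∀ᶠ m in branchFilter, e false (w (pre c)) < e false (w m) :=
        (tendsto_comap (f := fun m : Y => e false (w m))).eventually_gt_atTop _
      filter_upwards [h1] with m hm c' hc'
      cases hc'
      exact hm
    · exact Eventually.of_forall fun m c hc => by cases hc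
  -- the diagram is constant
  have hdiag : ∀ m m' : Y,
      (∀ i : F, ∀ c : range f, (i : range f ⊕ Fin 1) = Sum.inl c →
        e false (w (pre c)) < e false (w m)) →
      (∀ i : F, ∀ c : range f, (i : range f ⊕ Fin 1) = Sum.inl c →
        e false (w (pre c)) < e false (w m')) →
      (φ.Realize (Sum.elim (fun c : range f => (c : U)) (fun _ => f m)) ↔
        φ.Realize (Sum.elim (fun c : range f => (c : U)) (fun _ => f m'))) := by
    intro m m' hm hm'
    apply hF
    rw [hval, hval]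
    have hV : ∀ r (i j : F), V r (tup m i) (tup m j) = V r (tup m' i) (tup m' j) := by
      intro r i j
      rcases hi : (i : range f ⊕ Fin 1) with c | i' <;>
      rcases hj : (j : range f ⊕ Fin 1) with d | j'
      · rfl
      · show V r (pre c) m = V r (pre c) m'
        rw [V_far (hm i c hi) r, V_far (hm' i c hi) r]
      · show V r m (pre d) = V r m' (pre d)
        rw [V_comm r m, V_comm r m', V_far (hm j d hj) r, V_far (hm' j d hj) r]
      · show V r m m = V r m' m'
        rw [V_self, V_self]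
    apply sameDiag_of_lt_iff
    · intro i j
      show f (tup m i) = f (tup m j) ↔ f (tup m' i) = f (tup m' j)
      rw [f.injective.eq_iff, f.injective.eq_iff, ← V_eq_top_iff_Y (r := false),
        ← V_eq_top_iff_Y (r := false), hV]
    · intro r i j k l
      show Lt r (f (tup m i)) (f (tup m j)) (f (tup m k)) (f (tup m l)) ↔
        Lt r (f (tup m' i)) (f (tup m' j)) (f (tup m' k)) (f (tup m' l))
      rw [Lt_map, Lt_map, hV, hV]
  obtain ⟨m0, hm0⟩ := hfar.exists
  by_cases h0 : φ.Realize (Sum.elim (fun c : range f => (c : U)) (fun _ => f m0))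
  · left
    filter_upwards [hfar] with m hm
    exact (hdiag m m0 hm hm0).2 h0
  · right
    filter_upwards [hfar] with m hm
    intro hc
    exact h0 ((hdiag m m0 hm hm0).1 hc)

/-- The type of the branch over the small model. -/
noncomputable def qType : TypeOver LL (range f) (Fin 1) where
  sets := {S | (range f).Definable LL S ∧ ∀ᶠ m in branchFilter, (fun _ => f m) ∈ S}
  definable := fun S hS => hS.1
  inter_mem := fun S hS S' hS' => ⟨hS.1.inter hS'.1, hS.2.and hS'.2⟩
  mem_or_compl := by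
    intro S hS
    rcases branch_const f hS with h | h
    · exact Or.inl ⟨hS, h⟩
    · exact Or.inr ⟨hS.compl, h⟩
  empty_notMem := by
    rintro ⟨_, h⟩
    obtain ⟨m, hm⟩ := h.exists
    exact hm

/-- ultrafilters on the branch give coheirs -/
lemma isCoheir_of_tendsto (𝒱 : Ultrafilter (Fin 1 → Y))
    (h𝒱 : Tendsto (fun y : Fin 1 → Y => e false (w (y 0))) 𝒱 atTop) :
    IsCoheir (range f) (qType f) (ofUF f LL 𝒱) := by
  refine ⟨?_, finSat_ofUF f 𝒱⟩
  rintro S ⟨hS, hS'⟩
  refine ⟨hS.mono (subset_univ _), ?_⟩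
  have h1 : Tendsto (fun y : Fin 1 → Y => y 0) 𝒱 branchFilter := tendsto_comap_iff.2 h𝒱
  filter_upwards [h1.eventually hS'] with y hy
  have : f ∘ y = fun _ => f (y 0) := by
    funext i
    rw [Subsingleton.elim i 0]
    rfl
  rw [this]
  exact hy

/-- every coheir of `qType` is represented by an ultrafilter on the branch -/
lemma exists_rep_coheir {r : GlobalType LL U (Fin 1)} (hr : IsCoheir (range f) (qType f) r) :
    ∃ 𝒱 : Ultrafilter (Fin 1 → Y), Rep f 𝒱 r ∧
      Tendsto (fun y : Fin 1 → Y => e false (w (y 0))) 𝒱 atTop := by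
  obtain ⟨𝒱, h𝒱⟩ := exists_rep f hr.2
  refine ⟨𝒱, h𝒱, ?_⟩
  rw [tendsto_atTop]
  intro K
  obtain ⟨N, hN⟩ := exists_nat_ge K
  let c1 : range f := ⟨f (trunc N), trunc N, rfl⟩
  let c2 : range f := ⟨f (sg (nt N)), sg (nt N), rfl⟩
  let c3 : range f := ⟨f 0, 0, rfl⟩
  have hdef := (definable_Lt1 (B := range f) false (Sum.inr 0) (Sum.inl c1) (Sum.inl c2)
    (Sum.inl c3)).compl
  have hmem := hr.1 (a := _) (show _ ∈ (qType f).sets from ⟨hdef, by
    have h1 : ∀ᶠ m in branchFilter, (N : ℝ) < e false (w m) :=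
      (tendsto_comap (f := fun m : Y => e false (w m))).eventually_gt_atTop _
    filter_upwards [h1] with m hm
    simp only [mem_compl_iff, mem_ofPred_eq, Sum.elim_inl, Sum.elim_inr, c1, c2, c3, Lt_map]
    rw [V_sg, e_nat, V_trunc_lt_iff]
    exact hm.le.not_gt⟩)
  rw [h𝒱 _ (hdef.mono (subset_univ _))] at hmem
  filter_upwards [hmem] with y hy
  simp only [mem_compl_iff, mem_ofPred_eq, Sum.elim_inl, Sum.elim_inr, c1, c2, c3,
    Function.comp_apply, Lt_map] at hy
  rw [V_sg, e_nat, V_trunc_lt_iff, not_lt] at hy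
  exact hN.trans hy

/-- constant functions `Fin 1 → Y` -/
lemma const_eq (y : Fin 1 → Y) : (fun _ => y 0) = y := by
  funext i
  rw [Subsingleton.elim i 0]

omit [U ⊨ TT] in
/-- `Fin 1`-tuples and points -/
lemma ec_iff {𝒰 : Ultrafilter (Fin 1 → Y)} {𝒱 : Ultrafilter (Fin 1 → Y)} {𝒲 : Ultrafilter G}
    (h𝒰 : 𝒰 = 𝒲.map (fun g _ => sg g)) {D : Set (Fin 1 ⊕ Fin 1 → U)} :
    ((∀ᶠ x in (𝒰 : Filter (Fin 1 → Y)), ∀ᶠ y in (𝒱 : Filter (Fin 1 → Y)),
        Sum.elim (f ∘ x) (f ∘ y) ∈ D) ↔
      ∀ᶠ g in (𝒲 : Filter G), ∀ᶠ y in ((𝒱.map (fun y => y 0) : Ultrafilter Y) : Filter Y),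
        Sum.elim (fun _ => hh f g) (fun _ => f y) ∈ D) ∧
    ((∀ᶠ y in (𝒱 : Filter (Fin 1 → Y)), ∀ᶠ x in (𝒰 : Filter (Fin 1 → Y)),
        Sum.elim (f ∘ x) (f ∘ y) ∈ D) ↔
      ∀ᶠ y in ((𝒱.map (fun y => y 0) : Ultrafilter Y) : Filter Y), ∀ᶠ g in (𝒲 : Filter G),
        Sum.elim (fun _ => hh f g) (fun _ => f y) ∈ D) := by
  subst h𝒰
  have key : ∀ (g : G) (y : Fin 1 → Y), (Sum.elim (f ∘ (fun _ : Fin 1 => sg g)) (f ∘ y) :
      Fin 1 ⊕ Fin 1 → U) = Sum.elim (fun _ => hh f g) (fun _ => f (y 0)) := by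
    intro g y
    funext i
    rcases i with i | i
    · rfl
    · show f (y i) = f (y 0)
      rw [Subsingleton.elim i 0]
  constructor
  · simp only [Ultrafilter.coe_map, eventually_map, key]
  · simp only [Ultrafilter.coe_map, eventually_map, key]

/-- The main statement for one monster model. -/
theorem main_statement (hU : IsSaturated LL U) (Q : Set (GlobalType LL U (Fin 1)))
    (hQ : ∀ r ∈ Q, IsCoheir (range f) (qType f) r) (hcard : #Q < 𝔠) :
    ∃ p : GlobalType LL U (Fin 1), IsInvariant (range f) p ∧ FinSat (range f) p ∧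
      (∀ r ∈ Q, Commute (range f) p r) ∧
      ∃ r, IsCoheir (range f) (qType f) r ∧ ¬ Commute (range f) p r := by
  classical
  -- representing ultrafilters
  have hrep : ∀ r : Q, ∃ 𝒱 : Ultrafilter (Fin 1 → Y), Rep f 𝒱 (r : GlobalType LL U (Fin 1)) ∧
      Tendsto (fun y : Fin 1 → Y => e false (w (y 0))) 𝒱 atTop :=
    fun r => exists_rep_coheir f (hQ r r.2)
  choose UF hUF hUF' using hrep
  -- a good `s`
  obtain ⟨s, hs⟩ : ∃ s : ℝ, ∀ r : Q,
      ¬ Tendsto (fun y : Fin 1 → Y => e true (w (y 0))) (UF r) (𝓝[<] s) := by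
    by_contra hcon
    push Not at hcon
    choose r hr using hcon
    have hinj : Function.Injective r := by
      intro s s' hss
      have h1 := (hr s).mono_right nhdsWithin_le_nhds
      have h2 := (hr s').mono_right nhdsWithin_le_nhds
      rw [← hss] at h2
      exact tendsto_nhds_unique h1 h2
    have hle := lift_mk_le_lift_mk_of_injective hinj
    rw [mk_real, lift_continuum] at hle
    have h3 : lift.{0} #Q < lift.{0} (𝔠 : Cardinal.{u}) := lift_lt.2 hcard
    rw [lift_continuum] at h3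
    exact absurd hle (not_le.2 (by simpa using h3))
  -- the type `p`
  obtain ⟨gx, hgx1, hgx2⟩ := exists_seq s (fun _ => 0) (fun _ => 1) (fun _ => zero_lt_one)
  obtain ⟨gy, hgy1, hgy2⟩ := exists_seq s (fun n => n) (fun n => n + 1)
    (fun n => by linarith)
  let 𝒲 : Ultrafilter G := (hyperfilter ℕ).map gx
  let 𝒰 : Ultrafilter (Fin 1 → Y) := 𝒲.map (fun g _ => sg g)
  let 𝒱0 : Ultrafilter (Fin 1 → Y) := (hyperfilter ℕ).map (fun n _ => pt (gy n))
  have hW1 : ∀ᶠ g in (𝒲 : Filter G), 0 < e false g ∧ e false g < 1 := by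
    simp only [𝒲, Ultrafilter.coe_map, eventually_map]
    exact Eventually.of_forall hgx1
  have hW2 : Tendsto (e true) 𝒲 (𝓝[<] s) := by
    simp only [𝒲, Ultrafilter.coe_map, tendsto_map'_iff]
    exact hgx2.mono_left Nat.hyperfilter_le_atTop
  have hV0 : Tendsto (fun y : Fin 1 → Y => e false (w (y 0))) 𝒱0 atTop := by
    simp only [𝒱0, Ultrafilter.coe_map, tendsto_map'_iff]
    refine Tendsto.mono_left ?_ Nat.hyperfilter_le_atTop
    refine tendsto_atTop_mono (f := fun n : ℕ => (n : ℝ)) (fun n => ?_)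
      tendsto_natCast_atTop_atTop
    simp only [Function.comp_apply, w_pt]
    exact (hgy1 n).1.le
  have hV0' : Tendsto (fun y : Fin 1 → Y => e true (w (y 0))) 𝒱0 (𝓝[<] s) := by
    simp only [𝒱0, Ultrafilter.coe_map, tendsto_map'_iff]
    refine Tendsto.mono_left ?_ Nat.hyperfilter_le_atTop
    have : ((fun y : Fin 1 → Y => e true (w (y 0))) ∘ fun (n : ℕ) (_ : Fin 1) => pt (gy n)) =
        fun n => e true (gy n) := by
      funext n
      simp only [Function.comp_apply, w_pt]
    rw [this]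
    exact hgy2
  obtain ⟨η, hη⟩ := exists_limitPt f hU 𝒱0 hV0
  refine ⟨ofUF f LL 𝒰, isInvariant_ofUF f 𝒰, finSat_ofUF f 𝒰, ?_, ofUF f LL 𝒱0,
    isCoheir_of_tendsto f 𝒱0 hV0, ?_⟩
  · intro r hr
    rw [commute_iff hU (rep_ofUF f 𝒰) (hUF ⟨r, hr⟩)]
    intro D hD
    rw [(ec_iff f (𝒰 := 𝒰) (𝒲 := 𝒲) rfl).1, (ec_iff f (𝒰 := 𝒰) (𝒲 := 𝒲) rfl).2]
    have hV : Tendsto (fun y => e false (w y)) ((UF ⟨r, hr⟩).map (fun y => y 0)) atTop := by
      simp only [Ultrafilter.coe_map, tendsto_map'_iff]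
      exact hUF' ⟨r, hr⟩
    have hs' : ¬ Tendsto (fun y => e true (w y)) ((UF ⟨r, hr⟩).map (fun y => y 0)) (𝓝[<] s) := by
      simp only [Ultrafilter.coe_map, tendsto_map'_iff]
      exact hs ⟨r, hr⟩
    obtain ⟨t, ht⟩ := EC_definable f hW1 hW2 hV hs' hη hD
    have h1 := ht.curry
    have h2 := (eventually_swap_iff.1 ht).curry
    simp only [Prod.swap_prod_mk] at h2
    constructor
    · intro h
      obtain ⟨g, hg1, hg2⟩ := (h.and h1).exists
      obtain ⟨y, hy1, hy2⟩ := (hg1.and hg2).exists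
      have htt : t := hy2.1 hy1
      exact h2.mono fun y hy => hy.mono fun g hg => hg.2 htt
    · intro h
      obtain ⟨y, hy1, hy2⟩ := (h.and h2).exists
      obtain ⟨g, hg1, hg2⟩ := (hy1.and hy2).exists
      have htt : t := hg2.1 hg1
      exact h1.mono fun g hg => hg.mono fun y hy => hy.2 htt
  · rw [commute_iff hU (rep_ofUF f 𝒰) (rep_ofUF f 𝒱0)]
    intro hcomm
    let B : Set U := univ
    let t : Fin 4 → (univ : Set U) ⊕ (Fin 1 ⊕ Fin 1) :=
      ![Sum.inr (Sum.inl 0), Sum.inl ⟨oo f, mem_univ _⟩, Sum.inr (Sum.inr 0),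
        Sum.inl ⟨η, mem_univ _⟩]
    have hdef := definable_rel (B := (univ : Set U)) (κ := Fin 1 ⊕ Fin 1) true t
    have hD := hcomm _ hdef
    have hmem : ∀ x y : Fin 1 → Y, (Sum.elim (f ∘ x) (f ∘ y) ∈
        {v : Fin 1 ⊕ Fin 1 → U | Structure.RelMap (L := LL) (Rel.R true)
          (fun i => Sum.elim (fun c : (univ : Set U) => (c : U)) v (t i))} ↔
        V true (x 0) (0 : Y) < ((e true (w (y 0)) : ℝ) : WithTop ℝ)) := by
      intro x y
      rw [mem_ofPred_eq, relMap_eq_Lt]
      show Lt true (f (x 0)) (f 0) (f (y 0)) η ↔ _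
      rw [Lt_congr (Eqv_refl (f (x 0)) (f 0)) (hη (y 0)) true, hh, oo, Lt_map, V_sg]
    simp only [hmem] at hD
    have hL : ∀ᶠ x in (𝒰 : Filter (Fin 1 → Y)), ∀ᶠ y in (𝒱0 : Filter (Fin 1 → Y)),
        V true (x 0) (0 : Y) < ((e true (w (y 0)) : ℝ) : WithTop ℝ) := by
      simp only [𝒰, Ultrafilter.coe_map, eventually_map, V_sg, WithTop.coe_lt_coe]
      filter_upwards [W_lt hW2] with g hg
      exact (tendsto_nhdsWithin_iff.1 hV0').1.eventually (lt_mem_nhds hg)
    have hR := hD.1 hL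
    simp only [𝒰, Ultrafilter.coe_map, eventually_map, V_sg, WithTop.coe_lt_coe] at hR
    obtain ⟨y, hy1, hy2⟩ := (hR.and (tendsto_nhdsWithin_iff.1 hV0').2).exists
    obtain ⟨g, hg1, hg2⟩ := (hy1.and (W_ne hW2 (w (y 0)) hy2)).exists
    exact lt_asymm hg1 hg2

end

lemma card_LL : LL.card ≤ ℵ₀ := by
  have h1 : ∀ l, Countable (LL.Relations l) := by
    intro l
    have hinj : Function.Injective (fun R : Rel l => (match l, R with | _, .R r => r : Bool)) := by
      intro R R' h
      cases R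
      cases R'
      simp only at h
      rw [h]
    exact hinj.countable
  have h2 : ∀ l, Countable (LL.Functions l) := fun l => inferInstanceAs (Countable Empty)
  have h3 : Countable LL.Symbols := inferInstanceAs (Countable ((Σ l, _) ⊕ (Σ l, _)))
  exact mk_le_aleph0_iff.2 h3

end Pool.Agent.Helper1.CT
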