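import Pool.Agent.Helper1.CT.Defs

/-!
Global types finitely satisfiable in `M` as ultrafilter limits of points of `M`, and their products.
-/

open FirstOrder FirstOrder.Language Set Filter

namespace Pool.Agent.Helper1.CT

universe u

variable {L : FirstOrder.Language.{0, 0}} {U : Type u} [L.Structure U]

namespace TypeOver

variable {A : Set U} {n : Type} (p : TypeOver L A n)

lemma mem_of_superset {S S' : Set (n → U)} (hS : S ∈ p.sets) (h : S ⊆ S')
    (hd : A.Definable L S') : S' ∈ p.sets := by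
  rcases p.mem_or_compl S' hd with h1 | h1
  · exact h1
  · exfalso
    have h2 := p.inter_mem _ hS _ h1
    have h3 : S ∩ S'ᶜ = ∅ := by
      rw [← Set.disjoint_iff_inter_eq_empty]
      exact Set.disjoint_compl_right_iff_subset.2 h
    rw [h3] at h2
    exact p.empty_notMem h2

lemma compl_notMem {S : Set (n → U)} (hS : S ∈ p.sets) : Sᶜ ∉ p.sets := by
  intro h
  have := p.inter_mem _ hS _ h
  rw [inter_compl_self] at this
  exact p.empty_notMem this

lemma compl_mem_iff {S : Set (n → U)} (hd : A.Definable L S) : Sᶜ ∈ p.sets ↔ S ∉ p.sets :=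
  ⟨fun h h' => p.compl_notMem h' h, fun h => (p.mem_or_compl S hd).resolve_left h⟩

lemma univ_mem : univ ∈ p.sets := by
  rcases p.mem_or_compl univ definable_univ with h | h
  · exact h
  · rw [compl_univ] at h
    exact absurd h p.empty_notMem

lemma nonempty_of_mem {S : Set (n → U)} (hS : S ∈ p.sets) : S.Nonempty := by
  rw [nonempty_iff_ne_empty]
  rintro rfl
  exact p.empty_notMem hS

lemma finite_sInter_mem {F : Set (Set (n → U))} (hF : F ⊆ p.sets) (hfin : F.Finite) :
    ⋂₀ F ∈ p.sets := by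
  induction F, hfin using Set.Finite.induction_on with
  | empty => rw [sInter_empty]; exact p.univ_mem
  | @insert a s _ _ ih =>
    rw [sInter_insert]
    exact p.inter_mem _ (hF (mem_insert _ _)) _ (ih fun x hx => hF (mem_insert_of_mem _ hx))

end TypeOver

lemma exists_realizes (hU : IsSaturated L U) {k : ℕ} (r : GlobalType L U (Fin k)) {C : Set U}
    (hC : C.Countable) : ∃ b : Fin k → U, Realizes C r b := by
  obtain ⟨b, hb⟩ := hU C hC k {S | S ∈ r.sets ∧ C.Definable L S} (fun S hS => hS.2)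
    (fun F' hF' hfin => r.nonempty_of_mem
      (r.finite_sInter_mem (fun S hS => (hF' hS).1) hfin))
  exact ⟨b, fun S hS hd => hb S ⟨hS, hd⟩⟩

lemma Realizes.mem_iff {k : Type} {r : GlobalType L U k} {C : Set U} {b : k → U}
    (hb : Realizes C r b) {S : Set (k → U)} (hS : C.Definable L S) : b ∈ S ↔ S ∈ r.sets := by
  constructor
  · intro h
    by_contra hc
    have h1 : Sᶜ ∈ r.sets := (r.compl_mem_iff (hS.mono (subset_univ _))).2 hc
    exact hb Sᶜ h1 hS.compl h
  · intro h
    exact hb S h hS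

/-- substituting parameters in a definable set -/
lemma definable_subst {B : Set U} {κ κ' : Type} {D : Set (κ → U)} (hD : B.Definable L D)
    (g : κ → B ⊕ κ') :
    B.Definable L {v : κ' → U | (fun i => Sum.elim (fun c : B => (c : U)) v (g i)) ∈ D} := by
  rw [definable_iff_exists_formula_sum] at hD ⊢
  obtain ⟨φ, rfl⟩ := hD
  refine ⟨φ.relabel (Sum.elim Sum.inl g), ?_⟩
  ext v
  simp only [mem_ofPred_eq, Formula.realize_relabel]
  have : (Sum.elim (fun c : B => (c : U)) v ∘ Sum.elim Sum.inl g) =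
      Sum.elim (fun c : B => (c : U)) (fun i => Sum.elim (fun c : B => (c : U)) v (g i)) := by
    funext i
    rcases i with i | i <;> rfl
  rw [this]

lemma definable_fibre_left {B : Set U} {m n : Type} {D : Set (m ⊕ n → U)}
    (hD : B.Definable L D) (x : m → U) (hx : ∀ i, x i ∈ B) :
    B.Definable L {b : n → U | Sum.elim x b ∈ D} := by
  have h := definable_subst hD (κ' := n)
    (Sum.elim (fun i => Sum.inl ⟨x i, hx i⟩) (fun j => Sum.inr j))
  convert h using 1
  ext b
  simp only [mem_ofPred_eq]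
  have : Sum.elim x b = (fun i => Sum.elim (fun c : B => (c : U)) b
      (Sum.elim (fun i => Sum.inl ⟨x i, hx i⟩) (fun j => Sum.inr j) i)) := by
    funext i
    rcases i with i | i <;> rfl
  rw [this]

lemma definable_fibre_right {B : Set U} {m n : Type} {D : Set (m ⊕ n → U)}
    (hD : B.Definable L D) (b : n → U) (hb : ∀ i, b i ∈ B) :
    B.Definable L {a : m → U | Sum.elim a b ∈ D} := by
  have h := definable_subst hD (κ' := m)
    (Sum.elim (fun i => Sum.inr i) (fun j => Sum.inl ⟨b j, hb j⟩))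
  convert h using 1
  ext a
  simp only [mem_ofPred_eq]
  have : Sum.elim a b = (fun i => Sum.elim (fun c : B => (c : U)) a
      (Sum.elim (fun i => Sum.inr i) (fun j => Sum.inl ⟨b j, hb j⟩) i)) := by
    funext i
    rcases i with i | i <;> rfl
  rw [this]

lemma swapSet_swapSet {m n : Type} (D : Set (m ⊕ n → U)) : swapSet (swapSet D) = D := by
  ext c
  simp only [swapSet, mem_ofPred_eq]
  have : Sum.elim (Sum.elim (c ∘ Sum.inr) (c ∘ Sum.inl) ∘ Sum.inr)
      (Sum.elim (c ∘ Sum.inr) (c ∘ Sum.inl) ∘ Sum.inl) = c := by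
    funext i
    rcases i with i | i <;> rfl
  rw [this]

lemma definable_swap {B : Set U} {m n : Type} {D : Set (m ⊕ n → U)}
    (hD : B.Definable L D) : B.Definable L (swapSet D) := by
  have h := hD.preimage_comp (Sum.swap : m ⊕ n → n ⊕ m)
  convert h using 1
  ext c
  simp only [swapSet, mem_ofPred_eq, mem_preimage]
  have : Sum.elim (c ∘ Sum.inr) (c ∘ Sum.inl) = c ∘ Sum.swap := by
    funext i
    rcases i with i | i <;> rfl
  rw [this]

section rep

variable {M0 : Type} (f : M0 → U)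

/-- The ultrafilter `𝒰` on tuples of `M0` represents the global type `r`. -/
def Rep {n : Type} (𝒰 : Ultrafilter (n → M0)) (r : GlobalType L U n) : Prop :=
  ∀ S : Set (n → U), (univ : Set U).Definable L S →
    (S ∈ r.sets ↔ ∀ᶠ m in (𝒰 : Filter (n → M0)), f ∘ m ∈ S)

lemma exists_rep {n : Type} {r : GlobalType L U n} (hr : FinSat (range f) r) :
    ∃ 𝒰 : Ultrafilter (n → M0), Rep f 𝒰 r := by
  classical
  obtain ⟨𝒰, h𝒰⟩ := Ultrafilter.exists_ultrafilter_of_finite_inter_nonempty
    {T : Set (n → M0) | ∃ S ∈ r.sets, T = {m | f ∘ m ∈ S}} (by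
      intro T hT
      have h1 : ∀ t ∈ T, ∃ S ∈ r.sets, t = {m : n → M0 | f ∘ m ∈ S} := fun t ht => hT ht
      choose! S hS hS' using h1
      have h2 : ⋂₀ (S '' (T : Set (Set (n → M0)))) ∈ r.sets := by
        apply r.finite_sInter_mem
        · rintro _ ⟨t, ht, rfl⟩
          exact hS t ht
        · exact (T.finite_toSet).image _
      obtain ⟨b, hb, hbM⟩ := hr _ h2
      choose m hm using hbM
      refine ⟨m, fun t ht => ?_⟩
      rw [hS' t ht]
      have : f ∘ m = b := funext hm
      show f ∘ m ∈ S t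
      rw [this]
      exact hb _ ⟨t, ht, rfl⟩)
  refine ⟨𝒰, fun S hS => ⟨fun h => h𝒰 ⟨S, h, rfl⟩, fun h => ?_⟩⟩
  by_contra hc
  have h1 : Sᶜ ∈ r.sets := (r.compl_mem_iff hS).2 hc
  have h2 : {m : n → M0 | f ∘ m ∈ Sᶜ} ∈ 𝒰 := h𝒰 ⟨Sᶜ, h1, rfl⟩
  have h3 := 𝒰.inter_mem h h2
  have h4 : ({m : n → M0 | f ∘ m ∈ S} ∩ {m : n → M0 | f ∘ m ∈ Sᶜ}) = ∅ := by
    ext m
    simp
  exact 𝒰.empty_notMem (h4 ▸ h3)

/-- The global type given by an ultrafilter on tuples of `M0`. -/
def ofUF (L : FirstOrder.Language.{0, 0}) [L.Structure U] {n : Type}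
    (𝒰 : Ultrafilter (n → M0)) : GlobalType L U n where
  sets := {S | (univ : Set U).Definable L S ∧ ∀ᶠ m in (𝒰 : Filter (n → M0)), f ∘ m ∈ S}
  definable := fun S hS => hS.1
  inter_mem := fun S hS S' hS' => ⟨hS.1.inter hS'.1, hS.2.and hS'.2⟩
  mem_or_compl := by
    intro S hS
    rcases 𝒰.em (fun m => f ∘ m ∈ S) with h | h
    · exact Or.inl ⟨hS, h⟩
    · exact Or.inr ⟨hS.compl, h⟩
  empty_notMem := by
    rintro ⟨_, h⟩
    obtain ⟨m, hm⟩ := h.exists
    exact hm

lemma rep_ofUF {n : Type} (𝒰 : Ultrafilter (n → M0)) : Rep f 𝒰 (ofUF f L 𝒰) :=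
  fun _ hS => ⟨fun h => h.2, fun h => ⟨hS, h⟩⟩

lemma finSat_ofUF {n : Type} (𝒰 : Ultrafilter (n → M0)) : FinSat (range f) (ofUF f L 𝒰) := by
  rintro S ⟨_, h⟩
  obtain ⟨m, hm⟩ := h.exists
  exact ⟨f ∘ m, hm, fun i => ⟨m i, rfl⟩⟩

/-- images of definable sets under automorphisms are definable -/
lemma definable_image_equiv (σ : U ≃[L] U) {n : Type} {S : Set (n → U)}
    (hS : (univ : Set U).Definable L S) :
    (univ : Set U).Definable L ((fun (a : n → U) i => σ (a i)) '' S) := by
  rw [definable_iff_exists_formula_sum] at hS ⊢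
  obtain ⟨φ, rfl⟩ := hS
  refine ⟨φ.relabel (Sum.map (fun c : (univ : Set U) => (⟨σ c, mem_univ _⟩ : (univ : Set U)))
    id), ?_⟩
  ext v
  simp only [mem_ofPred_eq, Formula.realize_relabel, mem_image]
  have key : ∀ a : n → U, (φ.Realize (Sum.elim (fun c : (univ : Set U) => (c : U)) a) ↔
      φ.Realize (Sum.elim (fun c : (univ : Set U) => (c : U)) (fun i => σ (a i)) ∘
        Sum.map (fun c : (univ : Set U) => (⟨σ c, mem_univ _⟩ : (univ : Set U))) id)) := by
    intro a
    rw [← StrongHomClass.realize_formula σ φ]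
    have : (σ ∘ Sum.elim (fun c : (univ : Set U) => (c : U)) a) =
        (Sum.elim (fun c : (univ : Set U) => (c : U)) (fun i => σ (a i)) ∘
        Sum.map (fun c : (univ : Set U) => (⟨σ c, mem_univ _⟩ : (univ : Set U))) id) := by
      funext i
      rcases i with i | i <;> rfl
    rw [this]
  constructor
  · rintro ⟨a, ha, rfl⟩
    exact (key a).1 ha
  · intro hv
    refine ⟨fun i => σ.symm (v i), ?_, ?_⟩
    · rw [key]
      simpa using hv
    · funext i
      simp

lemma isInvariant_ofUF {n : Type} (𝒰 : Ultrafilter (n → M0)) :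
    IsInvariant (range f) (ofUF f L 𝒰) := by
  have main : ∀ σ : U ≃[L] U, (∀ m ∈ range f, σ m = m) →
      ∀ S ∈ (ofUF f L 𝒰).sets, (fun (a : n → U) i => σ (a i)) '' S ∈ (ofUF f L 𝒰).sets := by
    intro σ hσ S hS
    refine ⟨definable_image_equiv σ hS.1, ?_⟩
    filter_upwards [hS.2] with m hm
    refine ⟨f ∘ m, hm, ?_⟩
    funext i
    exact hσ _ ⟨m i, rfl⟩
  intro σ hσ S
  refine ⟨main σ hσ S, fun h => ?_⟩
  have h1 := main σ.symm (by
    intro m hm
    have := hσ m hm
    conv_lhs => rw [← this]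
    exact σ.symm_apply_apply m) _ h
  rw [← image_comp] at h1
  have h2 : ((fun (a : n → U) i => σ.symm (a i)) ∘ fun (a : n → U) i => σ (a i)) = id := by
    funext a i
    simp
  rwa [h2, image_id] at h1

variable {f}

/-- Computation of the product of types represented by ultrafilters. -/
lemma inProd_iff (hU : IsSaturated L U) [Countable M0] {m : Type} [Finite m] {k : ℕ}
    {p : GlobalType L U m}
    {r : GlobalType L U (Fin k)} {𝒰 : Ultrafilter (m → M0)} {𝒱 : Ultrafilter (Fin k → M0)}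
    (hp : Rep f 𝒰 p) (hr : Rep f 𝒱 r) {D : Set (m ⊕ Fin k → U)}
    (hD : (univ : Set U).Definable L D) :
    InProd (range f) p r D ↔
      ∀ᶠ x in (𝒰 : Filter (m → M0)), ∀ᶠ y in (𝒱 : Filter (Fin k → M0)),
        Sum.elim (f ∘ x) (f ∘ y) ∈ D := by
  have key : ∀ A : Set U, A.Finite → (range f ∪ A).Definable L D → ∀ b : Fin k → U,
      Realizes (range f ∪ A) r b → ({a | Sum.elim a b ∈ D} ∈ p.sets ↔
        ∀ᶠ x in (𝒰 : Filter (m → M0)), ∀ᶠ y in (𝒱 : Filter (Fin k → M0)),
        Sum.elim (f ∘ x) (f ∘ y) ∈ D) := by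
    intro A _ hDA b hb
    rw [hp _ (definable_fibre_right hD b fun _ => mem_univ _)]
    apply eventually_congr
    refine Eventually.of_forall fun x => ?_
    have hfib : (range f ∪ A).Definable L {b : Fin k → U | Sum.elim (f ∘ x) b ∈ D} :=
      definable_fibre_left hDA (f ∘ x) fun i => Or.inl ⟨x i, rfl⟩
    have h1 := hb.mem_iff hfib
    rw [hr _ (hfib.mono (subset_univ _))] at h1
    exact h1
  constructor
  · rintro ⟨A, hA, hDA, h⟩
    obtain ⟨b, hb⟩ := exists_realizes hU r ((countable_range f).union hA.countable)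
    exact (key A hA hDA b hb).1 (h b hb)
  · intro h
    obtain ⟨A0, _, hA0⟩ := definable_iff_finitely_definable.1 hD
    refine ⟨A0, A0.finite_toSet, hA0.mono subset_union_right, fun b hb => ?_⟩
    exact (key A0 A0.finite_toSet (hA0.mono subset_union_right) b hb).2 h

/-- Criterion for commuting. -/
lemma commute_iff (hU : IsSaturated L U) [Countable M0] {j k : ℕ}
    {p : GlobalType L U (Fin j)}
    {r : GlobalType L U (Fin k)} {𝒰 : Ultrafilter (Fin j → M0)} {𝒱 : Ultrafilter (Fin k → M0)}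
    (hp : Rep f 𝒰 p) (hr : Rep f 𝒱 r) :
    Commute (range f) p r ↔ ∀ D : Set (Fin j ⊕ Fin k → U), (univ : Set U).Definable L D →
      ((∀ᶠ x in (𝒰 : Filter (Fin j → M0)), ∀ᶠ y in (𝒱 : Filter (Fin k → M0)),
        Sum.elim (f ∘ x) (f ∘ y) ∈ D) ↔
      (∀ᶠ y in (𝒱 : Filter (Fin k → M0)), ∀ᶠ x in (𝒰 : Filter (Fin j → M0)),
        Sum.elim (f ∘ x) (f ∘ y) ∈ D)) := by
  have hsw : ∀ D : Set (Fin j ⊕ Fin k → U), (univ : Set U).Definable L D →
      (InProd (range f) r p (swapSet D) ↔
        (∀ᶠ y in (𝒱 : Filter (Fin k → M0)), ∀ᶠ x in (𝒰 : Filter (Fin j → M0)),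
        Sum.elim (f ∘ x) (f ∘ y) ∈ D)) := by
    intro D hD
    rw [inProd_iff hU hr hp (definable_swap hD)]
    exact Iff.rfl
  constructor
  · intro h D hD
    rw [← inProd_iff hU hp hr hD, ← hsw D hD]
    exact h D
  · intro h D
    by_cases hD : (univ : Set U).Definable L D
    · rw [inProd_iff hU hp hr hD, hsw D hD]
      exact h D hD
    · constructor
      · rintro ⟨A, _, hA, _⟩
        exact absurd (hA.mono (subset_univ _)) hD
      · rintro ⟨A, _, hA, _⟩
        have h1 := definable_swap (hA.mono (subset_univ _))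
        rw [swapSet_swapSet] at h1
        exact absurd h1 hD

end rep

end Pool.Agent.Helper1.CT
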