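import Pool.Agent.Helper1.CT.QE
import Pool.Agent.Helper1.CT.Defs

/-!
The theory of `Y` is NIP, by counting diagrams over a finite set.
-/

open FirstOrder FirstOrder.Language Set

namespace Pool.Agent.Helper1.CT

universe w

lemma finset_eq_of_chain {X : Type*} {D D' : Finset X}
    (h : ∀ x ∈ D, ∀ y ∈ D', x ∈ D' ∨ y ∈ D) (hc : D.card = D'.card) : D = D' := by
  by_cases hs : D ⊆ D'
  · exact Finset.eq_of_subset_of_card_le hs hc.ge
  · obtain ⟨x, hx, hx'⟩ := Finset.not_subset.1 hs
    have : D' ⊆ D := fun y hy => (h x hx y hy).resolve_left hx'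
    exact (Finset.eq_of_subset_of_card_le this hc.le).symm

section

variable {κ : Type} [Fintype κ] [Nonempty κ]

/-- index of a closest point -/
noncomputable def idx (s : κ → Y) (z : Y) : κ :=
  (Finite.exists_max (fun i => V false z (s i))).choose

lemma idx_spec (s : κ → Y) (z : Y) (i : κ) : V false z (s i) ≤ V false z (s (idx s z)) :=
  (Finite.exists_max (fun i => V false z (s i))).choose_spec i

open scoped Classical in
/-- pairs of smaller value -/
noncomputable def lowSet (s : κ → Y) (z : Y) (r : Bool) : Finset (κ × κ) :=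
  Finset.univ.filter (fun p => V r (s p.1) (s p.2) < V r z (s (idx s z)))

open scoped Classical in
/-- pairs of larger value -/
noncomputable def highSet (s : κ → Y) (z : Y) (r : Bool) : Finset (κ × κ) :=
  Finset.univ.filter (fun p => V r z (s (idx s z)) < V r (s p.1) (s p.2))

lemma low_lt (s : κ → Y) (z : Y) (r : Bool) :
    (lowSet s z r).card < (Fintype.card κ + 1) ^ 2 := by
  have h1 : (lowSet s z r).card ≤ Fintype.card (κ × κ) := Finset.card_le_univ _
  rw [Fintype.card_prod] at h1
  nlinarith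

lemma high_lt (s : κ → Y) (z : Y) (r : Bool) :
    (highSet s z r).card < (Fintype.card κ + 1) ^ 2 := by
  have h1 : (highSet s z r).card ≤ Fintype.card (κ × κ) := Finset.card_le_univ _
  rw [Fintype.card_prod] at h1
  nlinarith

/-- The type of codes for the position of one point over `κ` many points. -/
abbrev Code1 (κ : Type) [Fintype κ] : Type :=
  κ × (Bool → Fin ((Fintype.card κ + 1) ^ 2) × Fin ((Fintype.card κ + 1) ^ 2))

/-- the code of the position of one point -/
noncomputable def code1 (s : κ → Y) (z : Y) : Code1 κ :=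
  (idx s z, fun r => (⟨_, low_lt s z r⟩, ⟨_, high_lt s z r⟩))

lemma code1_step {s s' : κ → Y} (h : SameDiag s s') {z z' : Y} (hc : code1 s z = code1 s' z') :
    PI (insert (z, z') (graph s s')) := by
  have hidx : idx s z = idx s' z' := congrArg Prod.fst hc
  have hlow : ∀ r, (lowSet s z r).card = (lowSet s' z' r).card := by
    intro r
    have := congrFun (congrArg Prod.snd hc) r
    exact congrArg (fun x => (Prod.fst x).1) this
  have hhigh : ∀ r, (highSet s z r).card = (highSet s' z' r).card := by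
    intro r
    have := congrFun (congrArg Prod.snd hc) r
    exact congrArg (fun x => (Prod.snd x).1) this
  have hPI := PI_graph_iff.2 h
  have hcmp : ∀ r (p q : κ × κ), V r (s p.1) (s p.2) < V r (s q.1) (s q.2) ↔
      V r (s' p.1) (s' p.2) < V r (s' q.1) (s' q.2) := by
    intro r p q
    exact hPI r _ ⟨p.1, rfl⟩ _ ⟨p.2, rfl⟩ _ ⟨q.1, rfl⟩ _ ⟨q.2, rfl⟩
  have hL : ∀ r, lowSet s z r = lowSet s' z' r := by
    intro r
    apply finset_eq_of_chain _ (hlow r)
    intro p hp q hq
    simp only [lowSet, Finset.mem_filter, Finset.mem_univ, true_and] at hp hq ⊢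
    by_contra hcon
    push Not at hcon
    have h1 := (hcmp r p q).1 (lt_of_lt_of_le hp hcon.2)
    exact absurd (lt_trans h1 hq) (not_lt.2 hcon.1)
  have hH : ∀ r, highSet s z r = highSet s' z' r := by
    intro r
    apply finset_eq_of_chain _ (hhigh r)
    intro p hp q hq
    simp only [highSet, Finset.mem_filter, Finset.mem_univ, true_and] at hp hq ⊢
    by_contra hcon
    push Not at hcon
    have h1 := (hcmp r q p).1 (lt_of_le_of_lt hcon.2 hp)
    exact absurd (lt_trans hq h1) (not_lt.2 hcon.1)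
  refine hPI.step (p0 := (s (idx s z), s' (idx s z))) ⟨idx s z, rfl⟩ ?_ ?_ ?_
  · rintro _ ⟨i, rfl⟩
    exact idx_spec s z i
  · rintro _ ⟨i, rfl⟩
    show V false z' (s' i) ≤ V false z' (s' (idx s z))
    rw [hidx]
    exact idx_spec s' z' i
  · rintro r _ ⟨i, rfl⟩ _ ⟨j, rfl⟩
    show (V r (s i) (s j) < V r z (s (idx s z)) ↔ V r (s' i) (s' j) < V r z' (s' (idx s z))) ∧
      (V r z (s (idx s z)) < V r (s i) (s j) ↔ V r z' (s' (idx s z)) < V r (s' i) (s' j))
    have h1 := congrArg (fun F => (i, j) ∈ F) (hL r)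
    have h2 := congrArg (fun F => (i, j) ∈ F) (hH r)
    simp only [lowSet, highSet, Finset.mem_filter, Finset.mem_univ, true_and, eq_iff_iff] at h1 h2
    rw [← hidx] at h1 h2
    exact ⟨h1, h2⟩

omit [Nonempty κ] in
lemma card_code1 : Fintype.card (Code1 κ) ≤ (Fintype.card κ + 1) ^ 9 := by
  rw [Fintype.card_prod, Fintype.card_pi]
  simp only [Fintype.card_prod, Fintype.card_fin, Finset.prod_const, Finset.card_univ,
    Fintype.card_bool]
  calc Fintype.card κ * ((Fintype.card κ + 1) ^ 2 * (Fintype.card κ + 1) ^ 2) ^ 2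
      ≤ (Fintype.card κ + 1) * ((Fintype.card κ + 1) ^ 2 * (Fintype.card κ + 1) ^ 2) ^ 2 :=
        Nat.mul_le_mul_right _ (Nat.le_succ _)
    _ = (Fintype.card κ + 1) ^ 9 := by ring

/-- Codes for the positions of tuples. -/
lemma exists_code (l : ℕ) (s : κ → Y) : ∃ (C : Type) (_ : Fintype C) (code : (Fin l → Y) → C),
    Fintype.card C ≤ ((Fintype.card κ + l + 1) ^ 9) ^ l ∧
    ∀ b b' : Fin l → Y, code b = code b' → SameDiag (Sum.elim s b) (Sum.elim s b') := by
  induction l with
  | zero =>
    refine ⟨Unit, inferInstance, fun _ => (), by simp, fun b b' _ => ?_⟩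
    have : b = b' := Subsingleton.elim _ _
    subst this
    exact ⟨fun i j => Iff.rfl, fun r w => Iff.rfl⟩
  | succ l ih =>
    obtain ⟨C, _, code, hC, hcode⟩ := ih
    refine ⟨C × Code1 (κ ⊕ Fin l), inferInstance,
      fun b => (code (Fin.init b), code1 (Sum.elim s (Fin.init b)) (b (Fin.last l))), ?_, ?_⟩
    · rw [Fintype.card_prod]
      have h0 : Fintype.card (κ ⊕ Fin l) = Fintype.card κ + l := by
        rw [Fintype.card_sum, Fintype.card_fin]
      have h1 : Fintype.card (Code1 (κ ⊕ Fin l)) ≤ (Fintype.card κ + l + 1) ^ 9 :=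
        le_trans card_code1 (le_of_eq (by rw [h0]))
      calc Fintype.card C * Fintype.card (Code1 (κ ⊕ Fin l))
          ≤ ((Fintype.card κ + l + 1) ^ 9) ^ l * (Fintype.card κ + l + 1) ^ 9 :=
            Nat.mul_le_mul hC h1
        _ = ((Fintype.card κ + l + 1) ^ 9) ^ (l + 1) := by ring
        _ ≤ ((Fintype.card κ + (l + 1) + 1) ^ 9) ^ (l + 1) := by
            apply Nat.pow_le_pow_left
            apply Nat.pow_le_pow_left
            omega
    · intro b b' hbb
      have h1 : SameDiag (Sum.elim s (Fin.init b)) (Sum.elim s (Fin.init b')) :=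
        hcode _ _ (congrArg Prod.fst hbb)
      have h2 := code1_step h1 (congrArg Prod.snd hbb)
      apply PI_graph_iff.1
      apply h2.mono
      rintro _ ⟨i, rfl⟩
      rcases i with i | i
      · exact mem_insert_of_mem _ ⟨Sum.inl i, rfl⟩
      · refine Fin.lastCases ?_ (fun j => ?_) i
        · exact mem_insert _ _
        · exact mem_insert_of_mem _ ⟨Sum.inr j, rfl⟩

end

/-- exponentials beat polynomials -/
lemma exists_pow_lt (a b c : ℕ) : ∃ N : ℕ, ((N * a + b) ^ c) < 2 ^ N := by
  have h := tendsto_pow_const_div_const_pow_of_one_lt c (r := 2) one_lt_two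
  have hpos : (0 : ℝ) < 1 / ((a + b : ℕ) + 1 : ℝ) ^ c := by positivity
  have h2 := (h.eventually (gt_mem_nhds hpos)).and (Filter.eventually_ge_atTop 1)
  obtain ⟨N, hN, hN1⟩ := h2.exists
  refine ⟨N, ?_⟩
  have h3 : ((N : ℝ) ^ c) * ((a + b : ℕ) + 1 : ℝ) ^ c < 2 ^ N := by
    rw [div_lt_div_iff₀ (by positivity) (by positivity)] at hN
    linarith
  have h4 : N * a + b ≤ N * (a + b + 1) := by nlinarith
  have h5 : (N * a + b) ^ c ≤ (N * (a + b + 1)) ^ c := Nat.pow_le_pow_left h4 c
  refine lt_of_le_of_lt h5 ?_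
  rw [mul_pow]
  exact_mod_cast h3

/-- The theory is NIP. -/
theorem nip_TT : IsNIP.{w} TT := by
  classical
  intro k l φ
  obtain ⟨N, hN⟩ := exists_pow_lt k (l + 2) (9 * l)
  refine ⟨N, ?_⟩
  intro X _ _ ⟨a, b, hab⟩
  -- transfer to `Y`
  let s : (Fin N × Fin k) ⊕ (Set (Fin N) × Fin l) → X :=
    Sum.elim (fun p => a p.1 p.2) (fun p => b p.1 p.2)
  obtain ⟨t, ht⟩ := exists_sameDiag s
  have hφ : ∀ i S, φ.Realize (Sum.elim (a i) (b S)) ↔
      φ.Realize (Sum.elim (fun j => t (Sum.inl (i, j))) (fun j => t (Sum.inr (S, j)))) := by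
    intro i S
    apply realize_iff_Y
    have h1 := ht.comp (Sum.elim (fun j : Fin k => Sum.inl (i, j)) (fun j : Fin l => Sum.inr (S, j)))
    convert h1 using 1
    · funext j; rcases j with j | j <;> rfl
    · funext j; rcases j with j | j <;> rfl
  -- base points
  let s0 : Option (Fin N × Fin k) → Y := fun o => o.elim 0 (fun p => t (Sum.inl p))
  obtain ⟨C, _, code, hC, hcode⟩ := exists_code l s0
  have hinj : Function.Injective (fun S : Set (Fin N) => code (fun j => t (Sum.inr (S, j)))) := by
    intro S S' hSS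
    have h1 := hcode _ _ hSS
    ext i
    rw [← hab i S, ← hab i S', hφ i S, hφ i S']
    apply realize_iff_Y
    have h2 := h1.comp (Sum.elim (fun j : Fin k => Sum.inl (some (i, j)))
      (fun j : Fin l => Sum.inr j))
    convert h2 using 1
    · funext j; rcases j with j | j <;> rfl
    · funext j; rcases j with j | j <;> rfl
  have hcard := Fintype.card_le_of_injective _ hinj
  rw [Fintype.card_set, Fintype.card_fin] at hcard
  have h5 : Fintype.card (Option (Fin N × Fin k)) = N * k + 1 := by
    simp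
  rw [h5, ← pow_mul] at hC
  have : N * k + 1 + l + 1 = N * k + (l + 2) := by ring
  rw [this] at hC
  omega

end Pool.Agent.Helper1.CT
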