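import Pool.Agent.Helper1.CT.Branch
import Pool.Agent.Helper1.CT.Eqv
import Pool.Agent.Helper1.CT.Lim
import Pool.Agent.Helper1.CT.NIP

/-!
The main computation.
-/

open FirstOrder FirstOrder.Language Set Filter Topology

namespace Pool.Agent.Helper1.CT

universe u

section

variable {U : Type u} [LL.Structure U] [U ⊨ TT] (f : Y ↪ₑ[LL] U)

/-- the image of `sg g` -/
noncomputable def hh (g : G) : U := f (sg g)

/-- the base point -/
noncomputable def oo : U := f 0

omit [U ⊨ TT] in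
lemma Lt_hh (r : Bool) (g g' : G) : Lt r (hh f g) (oo f) (hh f g') (oo f) ↔ e r g < e r g' := by
  rw [hh, hh, oo, Lt_map, V_sg, V_sg, WithTop.coe_lt_coe]

omit [U ⊨ TT] in
lemma Eqv_hh {g g' : G} (h : Eqv (hh f g) (oo f) (hh f g') (oo f)) : g = g' := by
  by_contra hne
  rcases e_lt_or_lt (r := false) hne with h1 | h1
  · exact h.1 ((Lt_hh f false g g').2 h1)
  · exact h.2 ((Lt_hh f false g' g).2 h1)

/-- `η` is a limit of the branch in `U`. -/
def IsLimitPt (η : U) : Prop := ∀ y : Y, Eqv (f y) η (hh f (w y)) (oo f)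

omit [U ⊨ TT] in
lemma definable_rel {B : Set U} {κ : Type} (r : Bool) (t : Fin 4 → B ⊕ κ) :
    B.Definable LL {v : κ → U | Structure.RelMap (L := LL) (Rel.R r)
      (fun i => Sum.elim (fun c : B => (c : U)) v (t i))} := by
  rw [definable_iff_exists_formula_sum]
  refine ⟨Relations.formula (L := LL) (Rel.R r) (fun i => Term.var (t i)), ?_⟩
  ext v
  simp only [mem_ofPred_eq, Formula.realize_rel, Term.realize_var]

omit [U ⊨ TT] in
/-- A condition on the values of pairs among parameters and one variable is definable. -/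
lemma definable_Lt1 {B : Set U} (r : Bool) (a b c d : B ⊕ Fin 1) :
    B.Definable LL {v : Fin 1 → U | Lt r (Sum.elim (fun c : B => (c : U)) v a)
      (Sum.elim (fun c : B => (c : U)) v b) (Sum.elim (fun c : B => (c : U)) v c)
      (Sum.elim (fun c : B => (c : U)) v d)} := by
  have h := definable_rel (B := B) r ![a, b, c, d]
  convert h using 1
  ext v
  simp only [mem_ofPred_eq]
  rw [relMap_eq_Lt]
  rfl

omit [U ⊨ TT] in
/-- existence of limit points -/
lemma exists_limitPt (hU : IsSaturated LL U) (𝒱 : Ultrafilter (Fin 1 → Y))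
    (h𝒱 : Tendsto (fun y : Fin 1 → Y => e false (w (y 0))) 𝒱 atTop) :
    ∃ η : U, IsLimitPt f η := by
  obtain ⟨b, hb⟩ := exists_realizes hU (ofUF f LL 𝒱) (countable_range f)
  refine ⟨b 0, fun y => ?_⟩
  have hfar : ∀ᶠ m in (𝒱 : Filter (Fin 1 → Y)), e false (w y) < e false (w (m 0)) :=
    h𝒱.eventually_gt_atTop _
  have key : ∀ c d : Y, (Lt false (f y) (b 0) (f c) (f d) ↔
      ∀ᶠ m in (𝒱 : Filter (Fin 1 → Y)), V false y (m 0) < V false c d) ∧
      (Lt false (f c) (f d) (f y) (b 0) ↔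
      ∀ᶠ m in (𝒱 : Filter (Fin 1 → Y)), V false c d < V false y (m 0)) := by
    intro c d
    constructor
    · have hdef := definable_Lt1 (B := range f) false (Sum.inl ⟨f y, y, rfl⟩) (Sum.inr 0)
        (Sum.inl ⟨f c, c, rfl⟩) (Sum.inl ⟨f d, d, rfl⟩)
      have h1 := hb.mem_iff hdef
      rw [rep_ofUF f 𝒱 _ (hdef.mono (subset_univ _))] at h1
      simp only [mem_ofPred_eq, Sum.elim_inl, Sum.elim_inr, Function.comp_apply, Lt_map] at h1
      exact h1
    · have hdef := definable_Lt1 (B := range f) false (Sum.inl ⟨f c, c, rfl⟩)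
        (Sum.inl ⟨f d, d, rfl⟩) (Sum.inl ⟨f y, y, rfl⟩) (Sum.inr 0)
      have h1 := hb.mem_iff hdef
      rw [rep_ofUF f 𝒱 _ (hdef.mono (subset_univ _))] at h1
      simp only [mem_ofPred_eq, Sum.elim_inl, Sum.elim_inr, Function.comp_apply, Lt_map] at h1
      exact h1
  have key2 := key (sg (w y)) 0
  have hne : NeBot (𝒱 : Filter (Fin 1 → Y)) := 𝒱.neBot
  constructor
  · intro hc
    obtain ⟨m, hm1, hm2⟩ := ((key2.1.1 hc).and hfar).exists
    rw [V_far hm2, V_sg] at hm1
    exact lt_irrefl _ hm1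
  · intro hc
    obtain ⟨m, hm1, hm2⟩ := ((key2.2.1 hc).and hfar).exists
    rw [V_far hm2, V_sg] at hm1
    exact lt_irrefl _ hm1

end

section exchange

variable {U : Type u} [LL.Structure U] [U ⊨ TT] (f : Y ↪ₑ[LL] U)
variable {𝒲 : Ultrafilter G} {𝒱 : Ultrafilter Y} {s : ℝ}
variable (hW1 : ∀ᶠ g in (𝒲 : Filter G), 0 < e false g ∧ e false g < 1)
variable (hW2 : Tendsto (e true) 𝒲 (𝓝[<] s))
variable (hV : Tendsto (fun y => e false (w y)) 𝒱 atTop)

/-- normal forms of pairs of point functions -/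
def NF (𝒲 : Ultrafilter G) (𝒱 : Ultrafilter Y) (P P' : G × Y → U) : Prop :=
  (∃ c c' : U, ∀ᶠ z in (𝒲 : Filter G) ×ˢ (𝒱 : Filter Y), Eqv (P z) (P' z) c c') ∨
  (∀ᶠ z in (𝒲 : Filter G) ×ˢ (𝒱 : Filter Y), Eqv (P z) (P' z) (hh f z.1) (oo f)) ∨
  (∀ᶠ z in (𝒲 : Filter G) ×ˢ (𝒱 : Filter Y), Eqv (P z) (P' z) (hh f (w z.2)) (oo f))

/-- point functions -/
def PF (P : G × Y → U) : Prop :=
  (∃ c : U, P = fun _ => c) ∨ (P = fun z => hh f z.1) ∨ (P = fun z => f z.2)

lemma NF.symm {P P' : G × Y → U} (h : NF f 𝒲 𝒱 P P') : NF f 𝒲 𝒱 P' P := by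
  rcases h with ⟨c, c', h⟩ | h | h
  · exact Or.inl ⟨c, c', h.mono fun z hz => (Eqv_comm _ _).trans hz⟩
  · exact Or.inr (Or.inl (h.mono fun z hz => (Eqv_comm _ _).trans hz))
  · exact Or.inr (Or.inr (h.mono fun z hz => (Eqv_comm _ _).trans hz))

include hW2 in
lemma W_ne (g0 : G) (hg0 : e true g0 < s) : ∀ᶠ g in (𝒲 : Filter G), e true g0 < e true g :=
  (tendsto_nhdsWithin_iff.1 hW2).1.eventually (lt_mem_nhds hg0)

include hW2 in
lemma W_lt : ∀ᶠ g in (𝒲 : Filter G), e true g < s :=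
  (tendsto_nhdsWithin_iff.1 hW2).2

omit [U ⊨ TT] in
include hW1 hV in
lemma NF_xy : NF f 𝒲 𝒱 (fun z => hh f z.1) (fun z => f z.2) := by
  left
  refine ⟨hh f (0, 0), oo f, ?_⟩
  have h1 := (hW1.prod_inl (𝒱 : Filter Y)).and ((hV.eventually_gt_atTop 0).prod_inr (𝒲 : Filter G))
  filter_upwards [h1] with z hz
  rw [hh, hh, oo, Eqv_map, V_sg_y hz.1.1 hz.2, V_sg]

include hW2 in
lemma NF_xd (d : U) : NF f 𝒲 𝒱 (fun z => hh f z.1) (fun _ => d) := by
  have htri : ∀ᶠ g in (𝒲 : Filter G), Lt false (hh f g) (oo f) (oo f) d ∨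
      (Eqv (hh f g) (oo f) (oo f) d ∨ Lt false (oo f) d (hh f g) (oo f)) :=
    Eventually.of_forall fun g => trich _ _ _ _
  rw [Ultrafilter.eventually_or, Ultrafilter.eventually_or] at htri
  rcases htri with h | h | h
  · right; left
    filter_upwards [h.prod_inl (𝒱 : Filter Y)] with z hz
    exact Eqv_ultra hz
  · exfalso
    obtain ⟨g0, hg0, hg0'⟩ := (h.and (W_lt hW2)).exists
    obtain ⟨g, hg, hg'⟩ := (h.and (W_ne hW2 g0 hg0')).exists
    have := Eqv_hh f (hg0.trans hg.symm)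
    subst this
    exact lt_irrefl _ hg'
  · left
    refine ⟨d, oo f, ?_⟩
    filter_upwards [h.prod_inl (𝒱 : Filter Y)] with z hz
    have h1 : Lt false d (oo f) (oo f) (hh f z.1) :=
      (Lt_congr (Eqv_comm _ _) (Eqv_comm _ _) false).1 hz
    exact (Eqv_comm _ _).trans (Eqv_ultra h1)

include hV in
lemma NF_yd {η : U} (hη : IsLimitPt f η) (d : U) : NF f 𝒲 𝒱 (fun z => f z.2) (fun _ => d) := by
  have htri : ∀ᶠ y in (𝒱 : Filter Y), Lt false (f y) η η d ∨
      (Eqv (f y) η η d ∨ Lt false η d (f y) η) :=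
    Eventually.of_forall fun g => trich _ _ _ _
  rw [Ultrafilter.eventually_or, Ultrafilter.eventually_or] at htri
  rcases htri with h | h | h
  · right; right
    filter_upwards [h.prod_inr (𝒲 : Filter G)] with z hz
    exact (Eqv_ultra hz).trans (hη z.2)
  · exfalso
    obtain ⟨y0, hy0⟩ := h.exists
    obtain ⟨y, hy, hy'⟩ := (h.and (hV.eventually_gt_atTop (e false (w y0)))).exists
    have h1 : Eqv (hh f (w y0)) (oo f) (hh f (w y)) (oo f) :=
      (hη y0).symm.trans ((hy0.trans hy.symm).trans (hη y))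
    rw [Eqv_hh f h1] at hy'
    exact lt_irrefl _ hy'
  · left
    refine ⟨d, η, ?_⟩
    filter_upwards [h.prod_inr (𝒲 : Filter G)] with z hz
    have h1 : Lt false d η η (f z.2) :=
      (Lt_congr (Eqv_comm _ _) (Eqv_comm _ _) false).1 hz
    exact (Eqv_comm _ _).trans (Eqv_ultra h1)

include hW1 hW2 hV in
lemma NF_of_PF {η : U} (hη : IsLimitPt f η) {P P' : G × Y → U} (hP : PF f P) (hP' : PF f P') :
    NF f 𝒲 𝒱 P P' := by
  have hself : ∀ P : G × Y → U, NF f 𝒲 𝒱 P P := fun P =>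
    Or.inl ⟨oo f, oo f, Eventually.of_forall fun z => Eqv_self _ _⟩
  rcases hP with ⟨c, rfl⟩ | rfl | rfl <;> rcases hP' with ⟨c', rfl⟩ | rfl | rfl
  · exact Or.inl ⟨c, c', Eventually.of_forall fun z => Eqv_refl _ _⟩
  · exact (NF_xd f hW2 c).symm
  · exact (NF_yd f hV hη c).symm
  · exact NF_xd f hW2 c'
  · exact hself _
  · exact NF_xy f hW1 hV
  · exact NF_yd f hV hη c'
  · exact (NF_xy f hW1 hV).symm
  · exact hself _

/-- eventually constant truth value on rectangles -/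
def EC (𝒲 : Ultrafilter G) (𝒱 : Ultrafilter Y) (P : G × Y → Prop) : Prop :=
  ∃ t : Prop, ∀ᶠ z in (𝒲 : Filter G) ×ˢ (𝒱 : Filter Y), (P z ↔ t)

lemma EC_left (P : G → Prop) : EC 𝒲 𝒱 (fun z => P z.1) := by
  rcases 𝒲.em P with h | h
  · exact ⟨True, (h.prod_inl _).mono fun z hz => by simpa using hz⟩
  · exact ⟨False, (h.prod_inl _).mono fun z hz => by simpa using hz⟩

lemma EC_right (P : Y → Prop) : EC 𝒲 𝒱 (fun z => P z.2) := by
  rcases 𝒱.em P with h | h
  · exact ⟨True, (h.prod_inr _).mono fun z hz => by simpa using hz⟩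
  · exact ⟨False, (h.prod_inr _).mono fun z hz => by simpa using hz⟩

lemma EC_congr {P P' : G × Y → Prop} (h : ∀ᶠ z in (𝒲 : Filter G) ×ˢ (𝒱 : Filter Y), (P z ↔ P' z)) (h' : EC 𝒲 𝒱 P') :
    EC 𝒲 𝒱 P := by
  obtain ⟨t, ht⟩ := h'
  exact ⟨t, (h.and ht).mono fun z hz => hz.1.trans hz.2⟩

include hW1 hW2 hV in
/-- The decisive point: outside of one exceptional `s`, the mixed comparisons are eventually
constant. -/
lemma EC_mixed (hs : ¬ Tendsto (fun y => e true (w y)) 𝒱 (𝓝[<] s)) (r : Bool) :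
    EC 𝒲 𝒱 (fun z => e r z.1 < e r (w z.2)) ∧ EC 𝒲 𝒱 (fun z => e r (w z.2) < e r z.1) := by
  cases r with
  | false =>
    have h1 := (hW1.prod_inl (𝒱 : Filter Y)).and
      ((hV.eventually_gt_atTop 1).prod_inr (𝒲 : Filter G))
    constructor
    · refine ⟨True, h1.mono fun z hz => ?_⟩
      simp only [iff_true]
      exact hz.1.2.trans hz.2
    · refine ⟨False, h1.mono fun z hz => ?_⟩
      simp only [iff_false, not_lt]
      exact (hz.1.2.trans hz.2).le
  | true =>
    rcases 𝒱.em (fun y => s ≤ e true (w y)) with hA | hB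
    · have h1 := ((W_lt hW2).prod_inl (𝒱 : Filter Y)).and (hA.prod_inr (𝒲 : Filter G))
      constructor
      · refine ⟨True, h1.mono fun z hz => ?_⟩
        simp only [iff_true]
        exact lt_of_lt_of_le hz.1 hz.2
      · refine ⟨False, h1.mono fun z hz => ?_⟩
        simp only [iff_false, not_lt]
        exact (lt_of_lt_of_le hz.1 hz.2).le
    · -- there is `c < s` with `e true (w y) ≤ c` eventually
      obtain ⟨c, hcs, hc⟩ : ∃ c < s, ∀ᶠ y in (𝒱 : Filter Y), e true (w y) ≤ c := by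
        by_contra hcon
        push Not at hcon
        apply hs
        rw [tendsto_nhdsWithin_iff]
        refine ⟨?_, hB.mono fun y hy => not_le.1 hy⟩
        rw [tendsto_order]
        constructor
        · intro a ha
          exact hcon a ha
        · intro a ha
          exact hB.mono fun y hy => (not_le.1 hy).trans ha
      have h0 : ∀ᶠ g in (𝒲 : Filter G), c < e true g :=
        (tendsto_nhdsWithin_iff.1 hW2).1.eventually (lt_mem_nhds hcs)
      have h1 := (h0.prod_inl (𝒱 : Filter Y)).and (hc.prod_inr (𝒲 : Filter G))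
      constructor
      · refine ⟨False, h1.mono fun z hz => ?_⟩
        simp only [iff_false, not_lt]
        exact (lt_of_le_of_lt hz.2 hz.1).le
      · refine ⟨True, h1.mono fun z hz => ?_⟩
        simp only [iff_true]
        exact lt_of_le_of_lt hz.2 hz.1

include hW1 hW2 hV in
lemma EC_Lt (hs : ¬ Tendsto (fun y => e true (w y)) 𝒱 (𝓝[<] s)) (r : Bool)
    {P₁ P₂ P₃ P₄ : G × Y → U} (h : NF f 𝒲 𝒱 P₁ P₂) (h' : NF f 𝒲 𝒱 P₃ P₄) :
    EC 𝒲 𝒱 (fun z => Lt r (P₁ z) (P₂ z) (P₃ z) (P₄ z)) := by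
  rcases h with ⟨c, c', h⟩ | h | h <;> rcases h' with ⟨d, d', h'⟩ | h' | h'
  · exact EC_congr (P' := fun z => Lt r c c' d d')
      ((h.and h').mono fun z hz => Lt_congr hz.1 hz.2 r) (EC_left fun _ => Lt r c c' d d')
  · exact EC_congr (P' := fun z => Lt r c c' (hh f z.1) (oo f))
      ((h.and h').mono fun z hz => Lt_congr hz.1 hz.2 r)
      (EC_left fun g => Lt r c c' (hh f g) (oo f))
  · exact EC_congr (P' := fun z => Lt r c c' (hh f (w z.2)) (oo f))
      ((h.and h').mono fun z hz => Lt_congr hz.1 hz.2 r)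
      (EC_right fun y => Lt r c c' (hh f (w y)) (oo f))
  · exact EC_congr (P' := fun z => Lt r (hh f z.1) (oo f) d d')
      ((h.and h').mono fun z hz => Lt_congr hz.1 hz.2 r)
      (EC_left fun g => Lt r (hh f g) (oo f) d d')
  · exact EC_congr (P' := fun z => Lt r (hh f z.1) (oo f) (hh f z.1) (oo f))
      ((h.and h').mono fun z hz => Lt_congr hz.1 hz.2 r)
      (EC_left fun g => Lt r (hh f g) (oo f) (hh f g) (oo f))
  · refine EC_congr (P' := fun z => e r z.1 < e r (w z.2))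
      ((h.and h').mono fun z hz => ?_) (EC_mixed hW1 hW2 hV hs r).1
    rw [← Lt_hh f]
    exact Lt_congr hz.1 hz.2 r
  · exact EC_congr (P' := fun z => Lt r (hh f (w z.2)) (oo f) d d')
      ((h.and h').mono fun z hz => Lt_congr hz.1 hz.2 r)
      (EC_right fun y => Lt r (hh f (w y)) (oo f) d d')
  · refine EC_congr (P' := fun z => e r (w z.2) < e r z.1)
      ((h.and h').mono fun z hz => ?_) (EC_mixed hW1 hW2 hV hs r).2
    rw [← Lt_hh f]
    exact Lt_congr hz.1 hz.2 r
  · exact EC_congr (P' := fun z => Lt r (hh f (w z.2)) (oo f) (hh f (w z.2)) (oo f))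
      ((h.and h').mono fun z hz => Lt_congr hz.1 hz.2 r)
      (EC_right fun y => Lt r (hh f (w y)) (oo f) (hh f (w y)) (oo f))

include hW1 hW2 hV in
/-- Every definable set is eventually constant on rectangles. -/
lemma EC_definable (hs : ¬ Tendsto (fun y => e true (w y)) 𝒱 (𝓝[<] s)) {η : U}
    (hη : IsLimitPt f η) {D : Set (Fin 1 ⊕ Fin 1 → U)} (hD : (univ : Set U).Definable LL D) :
    EC 𝒲 𝒱 (fun z => Sum.elim (fun _ => hh f z.1) (fun _ => f z.2) ∈ D) := by
  rw [definable_iff_exists_formula_sum] at hD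
  obtain ⟨φ, rfl⟩ := hD
  obtain ⟨F, hF⟩ := exists_finset_of_formula φ
  let val : G × Y → ((univ : Set U) ⊕ (Fin 1 ⊕ Fin 1)) → U := fun z =>
    Sum.elim (fun c : (univ : Set U) => (c : U))
      (Sum.elim (fun _ => hh f z.1) (fun _ => f z.2))
  have hval : ∀ i, PF f (fun z => val z i) := by
    intro i
    rcases i with i | i | i
    · exact Or.inl ⟨i, rfl⟩
    · exact Or.inr (Or.inl rfl)
    · exact Or.inr (Or.inr rfl)
  have hLt : ∀ (r : Bool) (i j k l : F), EC 𝒲 𝒱
      (fun z => Lt r (val z i) (val z j) (val z k) (val z l)) := fun r i j k l =>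
    EC_Lt f hW1 hW2 hV hs r (NF_of_PF f hW1 hW2 hV hη (hval i) (hval j))
      (NF_of_PF f hW1 hW2 hV hη (hval k) (hval l))
  choose t ht using hLt
  have hall : ∀ᶠ z in (𝒲 : Filter G) ×ˢ (𝒱 : Filter Y), ∀ (r : Bool) (i j k l : F),
      (Lt r (val z i) (val z j) (val z k) (val z l) ↔ t r i j k l) := by
    simp only [eventually_all]
    exact ht
  have hne : NeBot ((𝒲 : Filter G) ×ˢ (𝒱 : Filter Y)) := inferInstance
  obtain ⟨z0, hz0⟩ := hall.exists
  refine ⟨φ.Realize (val z0), hall.mono fun z hz => ?_⟩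
  have hsd : SameDiag (val z ∘ ((↑) : F → _)) (val z0 ∘ ((↑) : F → _)) := by
    apply sameDiag_of_lt_iff
    · intro i j
      rw [eq_iff_Lt, eq_iff_Lt]
      exact not_congr ((hz false i j i i).trans (hz0 false i j i i).symm)
    · intro r i j k l
      exact (hz r i j k l).trans (hz0 r i j k l).symm
  exact hF _ _ hsd

end exchange

end Pool.Agent.Helper1.CT
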