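import Pool.Agent.Helper1.CT.Ext

/-!
The theory of the countable structure `Y` eliminates quantifiers, in the following semantic form:
two finite tuples of the same quantifier-free type satisfy the same formulas.
-/

open FirstOrder FirstOrder.Language Set

namespace Pool.Agent.Helper1.CT

/-- two `4`-ary relation symbols -/
inductive Rel : ℕ → Type
  | R (r : Bool) : Rel 4

/-- The language with two `4`-ary relation symbols. -/
abbrev LL : FirstOrder.Language.{0, 0} := ⟨fun _ => Empty, Rel⟩

noncomputable instance instY : LL.Structure Y where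
  funMap := fun f => f.elim
  RelMap := fun {n} (R : Rel n) v =>
    match n, R, v with
    | _, .R r, v => V r (v 0) (v 1) < V r (v 2) (v 3)

lemma relMap_Y (r : Bool) (v : Fin 4 → Y) :
    Structure.RelMap (L := LL) (Rel.R r) v ↔ V r (v 0) (v 1) < V r (v 2) (v 3) := Iff.rfl

/-- The two structures `N`, `N'` induce the same quantifier-free diagram on `s`, `s'`. -/
def SameDiag {N N' : Type*} [LL.Structure N] [LL.Structure N'] {ι : Type*} (s : ι → N)
    (s' : ι → N') : Prop :=
  (∀ i j, s i = s j ↔ s' i = s' j) ∧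
    ∀ (r : Bool) (w : Fin 4 → ι), Structure.RelMap (L := LL) (Rel.R r) (s ∘ w) ↔
      Structure.RelMap (L := LL) (Rel.R r) (s' ∘ w)

lemma SameDiag.symm {N N' : Type*} [LL.Structure N] [LL.Structure N'] {ι : Type*} {s : ι → N}
    {s' : ι → N'} (h : SameDiag s s') : SameDiag s' s :=
  ⟨fun i j => (h.1 i j).symm, fun r w => (h.2 r w).symm⟩

lemma SameDiag.trans {N N' N'' : Type*} [LL.Structure N] [LL.Structure N'] [LL.Structure N'']
    {ι : Type*} {s : ι → N} {s' : ι → N'} {s'' : ι → N''} (h : SameDiag s s')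
    (h' : SameDiag s' s'') : SameDiag s s'' :=
  ⟨fun i j => (h.1 i j).trans (h'.1 i j), fun r w => (h.2 r w).trans (h'.2 r w)⟩

lemma SameDiag.comp {N N' : Type*} [LL.Structure N] [LL.Structure N'] {ι κ : Type*} {s : ι → N}
    {s' : ι → N'} (h : SameDiag s s') (g : κ → ι) : SameDiag (s ∘ g) (s' ∘ g) :=
  ⟨fun i j => h.1 (g i) (g j), fun r w => h.2 r (g ∘ w)⟩

lemma PI.mono {P Q : Set (Y × Y)} (h : PI P) (hQ : Q ⊆ P) : PI Q :=
  fun r p hp q hq p' hp' q' hq' => h r p (hQ hp) q (hQ hq) p' (hQ hp') q' (hQ hq')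

lemma PI.swap {P : Set (Y × Y)} (h : PI P) : PI (Prod.swap '' P) := by
  rintro r _ ⟨p, hp, rfl⟩ _ ⟨q, hq, rfl⟩ _ ⟨p', hp', rfl⟩ _ ⟨q', hq', rfl⟩
  exact (h r p hp q hq p' hp' q' hq').symm

lemma PI.extend' {P : Set (Y × Y)} (h : PI P) (hfin : P.Finite) (z' : Y) :
    ∃ z : Y, PI (insert (z, z') P) := by
  obtain ⟨z, hz⟩ := h.swap.extend (hfin.image _) z'
  refine ⟨z, (hz.swap).mono ?_⟩
  intro p hp
  rcases mem_insert_iff.1 hp with rfl | hp
  · exact ⟨(z', z), mem_insert _ _, rfl⟩
  · exact ⟨p.swap, mem_insert_of_mem _ ⟨p, hp, rfl⟩, Prod.swap_swap p⟩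

lemma PI.eq_iff' {P : Set (Y × Y)} (h : PI P) {p q : Y × Y} (hp : p ∈ P) (hq : q ∈ P) :
    p.1 = q.1 ↔ p.2 = q.2 := by
  have h1 := h.eq_iff false hp hq hp hp
  rwa [V_self, V_self, V_eq_top_iff_Y, V_eq_top_iff_Y] at h1

/-- graph of a pair of tuples -/
def graph {ι : Type*} (s s' : ι → Y) : Set (Y × Y) := range fun i => (s i, s' i)

lemma PI_graph_iff {ι : Type*} {s s' : ι → Y} : PI (graph s s') ↔ SameDiag s s' := by
  constructor
  · intro h
    refine ⟨fun i j => h.eq_iff' ⟨i, rfl⟩ ⟨j, rfl⟩, fun r w => ?_⟩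
    rw [relMap_Y, relMap_Y]
    exact h r _ ⟨w 0, rfl⟩ _ ⟨w 1, rfl⟩ _ ⟨w 2, rfl⟩ _ ⟨w 3, rfl⟩
  · rintro h r _ ⟨i, rfl⟩ _ ⟨j, rfl⟩ _ ⟨k, rfl⟩ _ ⟨l, rfl⟩
    exact h.2 r ![i, j, k, l]

lemma term_eq_var {α : Type*} (t : LL.Term α) : ∃ i, t = Term.var i := by
  cases t with
  | var i => exact ⟨i, rfl⟩
  | func f _ => exact f.elim

/-- quantifier elimination in `Y` -/
theorem qe_Y {α : Type*} [Finite α] {n : ℕ} (φ : LL.BoundedFormula α n) :
    ∀ (v v' : α → Y) (xs xs' : Fin n → Y),
      SameDiag (Sum.elim v xs) (Sum.elim v' xs') → (φ.Realize v xs ↔ φ.Realize v' xs') := by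
  induction φ with
  | falsum => intro v v' xs xs' _; exact Iff.rfl
  | equal t₁ t₂ =>
    intro v v' xs xs' h
    obtain ⟨i, rfl⟩ := term_eq_var t₁
    obtain ⟨j, rfl⟩ := term_eq_var t₂
    exact h.1 i j
  | rel R ts =>
    intro v v' xs xs' h
    cases R with
    | R r =>
      choose w hw using fun i => term_eq_var (ts i)
      have h1 : (fun i => (ts i).realize (Sum.elim v xs)) = (Sum.elim v xs) ∘ w := by
        funext i; rw [hw i]; rfl
      have h2 : (fun i => (ts i).realize (Sum.elim v' xs')) = (Sum.elim v' xs') ∘ w := by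
        funext i; rw [hw i]; rfl
      show Structure.RelMap (L := LL) (Rel.R r) _ ↔ Structure.RelMap (L := LL) (Rel.R r) _
      rw [h1, h2]
      exact h.2 r w
  | imp f₁ f₂ ih₁ ih₂ =>
    intro v v' xs xs' h
    simp only [BoundedFormula.realize_imp]
    rw [ih₁ v v' xs xs' h, ih₂ v v' xs xs' h]
  | @all n f ih =>
    intro v v' xs xs' h
    simp only [BoundedFormula.realize_all]
    have hsub : ∀ z z' : Y, graph (Sum.elim v (Fin.snoc xs z)) (Sum.elim v' (Fin.snoc xs' z')) ⊆
        insert (z, z') (graph (Sum.elim v xs) (Sum.elim v' xs')) := by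
      rintro z z' _ ⟨i, rfl⟩
      rcases i with a | i
      · exact mem_insert_of_mem _ ⟨Sum.inl a, rfl⟩
      · refine Fin.lastCases ?_ (fun j => ?_) i
        · simp
        · refine mem_insert_of_mem _ ⟨Sum.inr j, ?_⟩
          simp
    have hfin : (graph (Sum.elim v xs) (Sum.elim v' xs')).Finite := finite_range _
    have hPI := PI_graph_iff.2 h
    constructor
    · intro hz z'
      obtain ⟨z, hzz⟩ := hPI.extend' hfin z'
      exact (ih v v' _ _ (PI_graph_iff.1 (hzz.mono (hsub z z')))).1 (hz z)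
    · intro hz z
      obtain ⟨z', hzz⟩ := hPI.extend hfin z
      exact (ih v v' _ _ (PI_graph_iff.1 (hzz.mono (hsub z z')))).2 (hz z')

/-- The theory. -/
abbrev TT : LL.Theory := LL.completeTheory Y

section transfer

variable {ι : Type*} [Finite ι] {N : Type*} [LL.Structure N] [N ⊨ TT]

/-- characteristic formula of the diagram of a finite tuple -/
lemma exists_char {N : Type*} [LL.Structure N] (s : ι → N) : ∃ χ : LL.Formula ι, χ.Realize s ∧
    ∀ s' : ι → Y, χ.Realize s' → SameDiag s s' := by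
  classical
  let A : ι × ι → LL.Formula ι := fun p =>
    if s p.1 = s p.2 then (Term.var p.1).equal (Term.var p.2)
    else ((Term.var p.1).equal (Term.var p.2)).not
  let B : Bool × (Fin 4 → ι) → LL.Formula ι := fun p =>
    if Structure.RelMap (L := LL) (Rel.R p.1) (s ∘ p.2) then
      Relations.formula (L := LL) (Rel.R p.1) (fun i => Term.var (p.2 i))
    else (Relations.formula (L := LL) (Rel.R p.1) (fun i => Term.var (p.2 i))).not
  refine ⟨Formula.iInf A ⊓ Formula.iInf B, ?_, ?_⟩
  · rw [Formula.realize_inf, Formula.realize_iInf, Formula.realize_iInf]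
    constructor
    · intro p
      by_cases h : s p.1 = s p.2
      · simp [A, h]
      · simp [A, h]
    · intro p
      by_cases h : Structure.RelMap (L := LL) (Rel.R p.1) (s ∘ p.2)
      · simp only [B, if_pos h, Formula.realize_rel]
        exact h
      · simp only [B, if_neg h, Formula.realize_not, Formula.realize_rel]
        exact h
  · intro s' hs'
    rw [Formula.realize_inf, Formula.realize_iInf, Formula.realize_iInf] at hs'
    refine ⟨fun i j => ?_, fun r w => ?_⟩
    · have := hs'.1 (i, j)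
      by_cases h : s i = s j
      · simp only [A, if_pos h, Formula.realize_equal] at this
        exact ⟨fun _ => this, fun _ => h⟩
      · simp only [A, if_neg h, Formula.realize_not, Formula.realize_equal] at this
        exact ⟨fun h' => absurd h' h, fun h' => absurd h' this⟩
    · have := hs'.2 (r, w)
      by_cases h : Structure.RelMap (L := LL) (Rel.R r) (s ∘ w)
      · simp only [B, if_pos h, Formula.realize_rel] at this
        exact ⟨fun _ => this, fun _ => h⟩
      · simp only [B, if_neg h, Formula.realize_not, Formula.realize_rel] at this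
        exact ⟨fun h' => absurd h' h, fun h' => absurd h' this⟩

lemma transfer_formula (s : ι → N) (φ : LL.Formula ι) (hφ : φ.Realize s) :
    ∃ s' : ι → Y, φ.Realize s' := by
  let ψ : LL.Formula (Empty ⊕ ι) := φ.relabel Sum.inr
  let σ : LL.Sentence := ψ.iExs ι
  have h1 : N ⊨ σ := by
    show Formula.Realize σ _
    rw [Formula.realize_iExs]
    refine ⟨s, ?_⟩
    rw [Formula.realize_relabel]
    exact hφ
  have h2 : Y ⊨ σ := (realize_iff_of_model_completeTheory Y N σ).1 h1
  have h3 := h2
  rw [Sentence.Realize, Formula.realize_iExs] at h3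
  obtain ⟨s', hs'⟩ := h3
  rw [Formula.realize_relabel] at hs'
  exact ⟨s', hs'⟩

/-- every finite tuple in a model has the diagram of a tuple of `Y` -/
lemma exists_sameDiag (s : ι → N) : ∃ s' : ι → Y, SameDiag s s' := by
  obtain ⟨χ, h1, h2⟩ := exists_char s
  obtain ⟨s', hs'⟩ := transfer_formula s χ h1
  exact ⟨s', h2 s' hs'⟩

lemma realize_iff_Y (s : ι → N) (s' : ι → Y) (h : SameDiag s s') (φ : LL.Formula ι) :
    φ.Realize s ↔ φ.Realize s' := by
  have main : ∀ φ : LL.Formula ι, φ.Realize s → φ.Realize s' := by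
    intro φ hφ
    obtain ⟨χ, h1, h2⟩ := exists_char s
    obtain ⟨s'', hs''⟩ := transfer_formula s (χ ⊓ φ) (Formula.realize_inf.2 ⟨h1, hφ⟩)
    rw [Formula.realize_inf] at hs''
    have h3 : SameDiag s'' s' := (h2 s'' hs''.1).symm.trans h
    have h4 : ∀ xs xs' : Fin 0 → Y, SameDiag (Sum.elim s'' xs) (Sum.elim s' xs') := by
      intro xs xs'
      have : ∀ (t : ι → Y) (xs : Fin 0 → Y), Sum.elim t xs =
          t ∘ (fun i : ι ⊕ Fin 0 => Sum.elim id (fun j : Fin 0 => j.elim0) i) := by
        intro t xs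
        funext i
        rcases i with i | i
        · rfl
        · exact i.elim0
      rw [this, this]
      exact h3.comp _
    exact (qe_Y φ s'' s' _ _ (h4 _ _)).1 hs''.2
  constructor
  · exact main φ
  · intro hφ
    by_contra hc
    have := main φ.not (Formula.realize_not.2 hc)
    rw [Formula.realize_not] at this
    exact this hφ

lemma realize_iff_of_sameDiag {N' : Type*} [LL.Structure N'] [N' ⊨ TT] (s : ι → N) (s' : ι → N')
    (h : SameDiag s s') (φ : LL.Formula ι) : φ.Realize s ↔ φ.Realize s' := by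
  obtain ⟨t, ht⟩ := exists_sameDiag s
  rw [realize_iff_Y s t ht, realize_iff_Y s' t (h.symm.trans ht)]

end transfer

/-- Formulas with arbitrarily many variables only depend on the diagram of finitely many of
them. -/
lemma exists_finset_of_formula {α : Type*} (φ : LL.Formula α) : ∃ F : Finset α,
    ∀ {N : Type*} [LL.Structure N] [N ⊨ TT] (v v' : α → N),
      SameDiag (v ∘ ((↑) : F → α)) (v' ∘ ((↑) : F → α)) → (φ.Realize v ↔ φ.Realize v') := by
  classical
  refine ⟨φ.freeVarFinset, ?_⟩
  intro N _ _ v v' h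
  have key : ∀ v : α → N, Formula.Realize (BoundedFormula.restrictFreeVar φ id :
      LL.Formula φ.freeVarFinset) (v ∘ ((↑) : φ.freeVarFinset → α)) ↔ φ.Realize v := by
    intro v
    exact BoundedFormula.realize_restrictFreeVar v (fun a => rfl)
  rw [← key v, ← key v']
  exact realize_iff_of_sameDiag _ _ h _

end Pool.Agent.Helper1.CT
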