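import Mathlib

/-!
The countable structure: finitely supported functions `ℚ × ℚ → ℤ`, with the ultrametric structure
given by the first difference, read through two embeddings of `ℚ × ℚ` in `ℝ`.
-/

open Set

namespace Pool.Agent.Helper1.CT

/-- the index group -/
abbrev G := ℚ × ℚ

/-- The two embeddings `(a, b) ↦ a ± b √2` of `ℚ × ℚ` in `ℝ`. -/
noncomputable def e (r : Bool) (g : G) : ℝ :=
  if r then (g.1 : ℝ) - g.2 * √2 else (g.1 : ℝ) + g.2 * √2

lemma rat_sqrt {a b : ℚ} (h : (a : ℝ) + b * √2 = 0) : a = 0 ∧ b = 0 := by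
  have hb : b = 0 := by
    by_contra hb
    have hb' : (b : ℝ) ≠ 0 := by exact_mod_cast hb
    apply irrational_sqrt_two
    refine ⟨-a / b, ?_⟩
    push_cast
    rw [div_eq_iff hb']
    linarith
  subst hb
  simp at h
  exact ⟨h, rfl⟩

lemma e_inj {r : Bool} {g g' : G} (h : e r g = e r g') : g = g' := by
  unfold e at h
  split_ifs at h
  · have := @rat_sqrt (g.1 - g'.1) (g'.2 - g.2) (by push_cast; linarith)
    ext
    · exact sub_eq_zero.1 this.1
    · exact (sub_eq_zero.1 this.2).symm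
  · have := @rat_sqrt (g.1 - g'.1) (g.2 - g'.2) (by push_cast; linarith)
    ext
    · exact sub_eq_zero.1 this.1
    · exact sub_eq_zero.1 this.2

lemma e_lt_or_lt {r : Bool} {g g' : G} (h : g ≠ g') : e r g < e r g' ∨ e r g' < e r g := by
  rcases lt_trichotomy (e r g) (e r g') with h1 | h1 | h1
  · exact Or.inl h1
  · exact absurd (e_inj h1) h
  · exact Or.inr h1

lemma e_dense : DenseRange (fun g : G => ((e false g, e true g) : ℝ × ℝ)) := by
  have h1 : DenseRange (Prod.map (fun q : ℚ => (q : ℝ)) (fun q : ℚ => (q : ℝ))) :=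
    Rat.denseRange_cast.prodMap Rat.denseRange_cast
  have h2 : Continuous (fun p : ℝ × ℝ => ((p.1 + p.2 * √2, p.1 - p.2 * √2) : ℝ × ℝ)) := by
    fun_prop
  have h3 : Function.Surjective
      (fun p : ℝ × ℝ => ((p.1 + p.2 * √2, p.1 - p.2 * √2) : ℝ × ℝ)) := by
    intro p
    refine ⟨((p.1 + p.2) / 2, (p.1 - p.2) / (2 * √2)), ?_⟩
    have : √2 ≠ 0 := by positivity
    ext
    · field_simp; ring
    · field_simp; ring
  have h4 := (h3.denseRange).comp h1 h2
  convert h4 using 1
  ext g <;> simp [e, Function.comp]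

/-- density in boxes -/
lemma e_box {O : Set (ℝ × ℝ)} (hO : IsOpen O) (hne : O.Nonempty) :
    ∃ g : G, (e false g, e true g) ∈ O := by
  obtain ⟨g, hg⟩ := e_dense.exists_mem_open hO hne
  exact ⟨g, hg⟩

/-- `g` is the first difference of `a` and `b`. -/
def FD (a b : G → ℤ) (g : G) : Prop :=
  a g ≠ b g ∧ ∀ g', e false g' < e false g → a g' = b g'

lemma FD.unique {a b : G → ℤ} {g g' : G} (h : FD a b g) (h' : FD a b g') : g = g' := by
  by_contra hne
  rcases e_lt_or_lt (r := false) hne with h1 | h1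
  · exact h.1 (h'.2 _ h1)
  · exact h'.1 (h.2 _ h1)

lemma FD.symm {a b : G → ℤ} {g : G} (h : FD a b g) : FD b a g :=
  ⟨h.1.symm, fun g' hg' => (h.2 g' hg').symm⟩

/-- The value of a pair of functions. -/
noncomputable def V (r : Bool) (a b : G → ℤ) : WithTop ℝ :=
  open scoped Classical in if h : ∃ g, FD a b g then ((e r h.choose : ℝ) : WithTop ℝ) else ⊤

lemma V_of_FD (r : Bool) {a b : G → ℤ} {g : G} (h : FD a b g) : V r a b = (e r g : ℝ) := by
  have hex : ∃ g, FD a b g := ⟨g, h⟩
  rw [V, dif_pos hex, hex.choose_spec.unique h]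

lemma V_self (r : Bool) (a : G → ℤ) : V r a a = ⊤ := by
  rw [V, dif_neg]
  rintro ⟨g, hg⟩
  exact hg.1 rfl

lemma exists_FD_of_ne_top {r : Bool} {a b : G → ℤ} (h : V r a b ≠ ⊤) : ∃ g, FD a b g := by
  by_contra hne
  exact h (by rw [V, dif_neg hne])

lemma V_comm (r : Bool) (a b : G → ℤ) : V r a b = V r b a := by
  by_cases h : ∃ g, FD a b g
  · obtain ⟨g, hg⟩ := h
    rw [V_of_FD r hg, V_of_FD r hg.symm]
  · have h' : ¬ ∃ g, FD b a g := fun ⟨g, hg⟩ => h ⟨g, hg.symm⟩
    rw [V, V, dif_neg h, dif_neg h']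

/-- value transfer -/
lemma V_transfer {a b c d : G → ℤ} {r : Bool} (h : V r a b = V r c d) (r' : Bool) :
    V r' a b = V r' c d := by
  by_cases h1 : V r a b = ⊤
  · have h2 : V r c d = ⊤ := by rw [← h, h1]
    have h1' : ¬ ∃ g, FD a b g := by
      rintro ⟨g, hg⟩
      rw [V_of_FD r hg] at h1
      exact WithTop.coe_ne_top h1
    have h2' : ¬ ∃ g, FD c d g := by
      rintro ⟨g, hg⟩
      rw [V_of_FD r hg] at h2
      exact WithTop.coe_ne_top h2
    rw [V, V, dif_neg h1', dif_neg h2']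
  · have h2 : V r c d ≠ ⊤ := by rw [← h]; exact h1
    obtain ⟨g, hg⟩ := exists_FD_of_ne_top h1
    obtain ⟨g', hg'⟩ := exists_FD_of_ne_top h2
    rw [V_of_FD r hg, V_of_FD r hg'] at h
    have : g = g' := e_inj (WithTop.coe_injective h)
    subst this
    rw [V_of_FD r' hg, V_of_FD r' hg']

/-- a pair of functions is good if it is equal or has a first difference -/
def Good (a b : G → ℤ) : Prop := a = b ∨ ∃ g, FD a b g

lemma Good.symm {a b : G → ℤ} (h : Good a b) : Good b a := by
  rcases h with h | ⟨g, hg⟩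
  · exact Or.inl h.symm
  · exact Or.inr ⟨g, hg.symm⟩

lemma eq_of_lt_V {a b : G → ℤ} (hg : Good a b) {g : G}
    (h : ((e false g : ℝ) : WithTop ℝ) < V false a b) : a g = b g := by
  rcases hg with rfl | ⟨g0, hg0⟩
  · rfl
  · rw [V_of_FD false hg0] at h
    exact hg0.2 g (WithTop.coe_lt_coe.1 h)

lemma V_le_of_ne {a b : G → ℤ} (hab : Good a b) {g : G} (h : a g ≠ b g) :
    V false a b ≤ ((e false g : ℝ) : WithTop ℝ) := by
  by_contra hlt
  exact h (eq_of_lt_V hab (not_le.1 hlt))

lemma V_eq_top_iff {r : Bool} {a b : G → ℤ} (hab : Good a b) : V r a b = ⊤ ↔ a = b := by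
  constructor
  · intro h
    rcases hab with h1 | ⟨g, hg⟩
    · exact h1
    · rw [V_of_FD r hg] at h
      exact absurd h WithTop.coe_ne_top
  · rintro rfl
    exact V_self r a

/-- the ultrametric inequality, in its strict form -/
lemma V_ultra {a b c : G → ℤ} (hbc : Good b c) (h : V false a b < V false b c) (r : Bool) :
    V r a c = V r a b := by
  have h1 : V false a b ≠ ⊤ := ne_top_of_lt h
  obtain ⟨g, hg⟩ := exists_FD_of_ne_top h1
  have hfd : FD a c g := by
    rw [V_of_FD false hg] at h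
    refine ⟨?_, fun g' hg' => ?_⟩
    · rw [← eq_of_lt_V hbc h]
      exact hg.1
    · rw [hg.2 g' hg']
      exact eq_of_lt_V hbc (lt_trans (WithTop.coe_lt_coe.2 hg') h)
  rw [V_of_FD r hfd, V_of_FD r hg]

/-- The countable model. -/
abbrev Y := G →₀ ℤ

lemma good_Y (a b : Y) : Good a b := by
  by_cases h : a = b
  · exact Or.inl (by rw [h])
  right
  have hne : (a - b).support.Nonempty := by
    rw [Finsupp.support_nonempty_iff]
    exact sub_ne_zero.2 h
  obtain ⟨g, hg, hmin⟩ := (a - b).support.exists_min_image (e false) hne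
  refine ⟨g, ?_, fun g' hg' => ?_⟩
  · intro heq
    rw [Finsupp.mem_support_iff] at hg
    apply hg
    simp [heq]
  · by_contra hne'
    have : g' ∈ (a - b).support := by
      rw [Finsupp.mem_support_iff]
      intro h0
      apply hne'
      have : a g' - b g' = 0 := by simpa using h0
      linarith
    exact absurd (hmin g' this) (not_le.2 hg')

lemma V_eq_top_iff_Y {r : Bool} {a b : Y} : V r a b = ⊤ ↔ a = b := by
  rw [V_eq_top_iff (good_Y a b)]
  exact DFunLike.coe_fn_eq

end Pool.Agent.Helper1.CT
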